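import Pool.Agent.Y843.HG.Core
import Pool.Agent.Helper923.HMertens

/-!
# The sieve product of Goldbach's problem
-/

set_option autoImplicit false

namespace Pool.Agent.Y843.HG

open Finset Filter
open Pool.Agent.Y843.HS (Pr VV Pr_mem Pr_prime)

/-- the classes `0` and `n` modulo `p` -/
def ZG (n p : ℕ) : Finset ℕ := {0, n % p}

theorem card_ZG {n p : ℕ} : (ZG n p).card = if p ∣ n then 1 else 2 := by
  unfold ZG
  split_ifs with h
  · rw [Nat.mod_eq_zero_of_dvd h]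
    simp
  · rw [card_insert_of_notMem, card_singleton]
    rw [mem_singleton]
    intro h0
    exact h (Nat.dvd_of_mod_eq_zero h0.symm)

theorem VV_anti {Z : ℕ → Finset ℕ} {a b : ℕ} (h : a ≤ b)
    (hZ : ∀ p ∈ Pr 0 b, ∀ c ∈ Z p, c < p) : VV Z 0 b ≤ VV Z 0 a := by
  have h1 : ∀ p ∈ Pr 0 b, 0 ≤ 1 - ((Z p).card : ℝ) / p ∧ 1 - ((Z p).card : ℝ) / p ≤ 1 := by
    intro p hp
    refine ⟨Pool.Agent.Y843.HS.one_sub_nonneg (hZ p hp), ?_⟩
    have : (0 : ℝ) ≤ ((Z p).card : ℝ) / p := by positivity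
    linarith
  have hsub : Pr 0 a ⊆ Pr 0 b := by
    intro p hp
    rw [Pr_mem] at hp ⊢
    exact ⟨⟨hp.1.1, by omega⟩, hp.2⟩
  unfold VV
  rw [← prod_sdiff hsub]
  apply mul_le_of_le_one_left
  · exact prod_nonneg fun p hp => (h1 p (hsub hp)).1
  · exact Finset.prod_le_one (fun p hp => (h1 p (mem_sdiff.1 hp).1).1)
      (fun p hp => (h1 p (mem_sdiff.1 hp).1).2)

/-- the product of `1 - 1 / p` -/
noncomputable def V1 (y : ℕ) : ℝ := ∏ p ∈ Pr 0 y, (1 - 1 / (p : ℝ))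

theorem fac1 {p : ℕ} (hp : p.Prime) : (1 : ℝ) / 2 ≤ 1 - 1 / (p : ℝ) ∧ 1 - 1 / (p : ℝ) ≤ 1 := by
  have h2 : (2 : ℝ) ≤ p := by exact_mod_cast hp.two_le
  constructor
  · have : 1 / (p : ℝ) ≤ 1 / 2 := one_div_le_one_div_of_le (by norm_num) h2
    linarith
  · have : 0 ≤ 1 / (p : ℝ) := by positivity
    linarith

theorem V1_pos (y : ℕ) : 0 < V1 y := prod_pos fun p hp => by
  have := (fac1 (Pr_prime hp)).1
  linarith

/-- Mertens -/
theorem V1_bounds : ∃ c C : ℝ, 0 < c ∧ 0 < C ∧ ∀ y : ℕ, 2 ≤ y →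
    c / Real.log y ≤ V1 y ∧ V1 y ≤ C / Real.log y := by
  obtain ⟨C, hC0, hC⟩ := Pool.Agent.Helper923.HMertens.mertens_ratio
  have hl2 : (0 : ℝ) < Real.log 2 := Real.log_pos (by norm_num)
  have hsplit : ∀ y : ℕ, 2 ≤ y → V1 y = 1 / 2 * ∏ p ∈ Pr 2 y, (1 - 1 / (p : ℝ)) := by
    intro y hy
    unfold V1
    have h1 : Pr 0 y = insert 2 (Pr 2 y) := by
      ext p
      rw [mem_insert, Pr_mem, Pr_mem]
      constructor
      · rintro ⟨⟨h1, h2⟩, h3⟩
        rcases eq_or_lt_of_le h3.two_le with h | h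
        · exact Or.inl h.symm
        · exact Or.inr ⟨⟨h, h2⟩, h3⟩
      · rintro (h | ⟨⟨h1, h2⟩, h3⟩)
        · rw [h]; exact ⟨⟨by norm_num, hy⟩, Nat.prime_two⟩
        · exact ⟨⟨by omega, h2⟩, h3⟩
    rw [h1, prod_insert (by rw [Pr_mem]; omega)]
    norm_num
  refine ⟨Real.exp (-(2 * C / Real.log 2)) * Real.log 2 / 8, Real.exp (C / Real.log 2) * Real.log 2, by positivity,
    by positivity, ?_⟩
  intro y hy
  have hly : 0 < Real.log y := Real.log_pos (by exact_mod_cast (show 1 < y by omega))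
  have h1 := abs_le.1 (hC 2 y le_rfl hy)
  push_cast at h1
  have hS : ∑ p ∈ Pr 2 y, (1 : ℝ) / p = ∑ p ∈ (Ioc 2 y).filter Nat.Prime, (1 : ℝ) / p := rfl
  rw [hsplit y hy]
  constructor
  · -- lower bound: `1 - x ≥ exp (- x - 2 x ^ 2)`-type bound
    have h2 : ∀ p ∈ Pr 2 y, Real.exp (-(1 / (p : ℝ) + 1 / ((p : ℝ) * (p - 1)))) ≤ 1 - 1 / (p : ℝ) := by
      intro p hp
      have hp3 : (3 : ℝ) ≤ p := by exact_mod_cast (Pr_mem.1 hp).1.1
      have h3 : 1 - 1 / (p : ℝ) = (1 + 1 / ((p : ℝ) - 1))⁻¹ := by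
        have e1 : (p : ℝ) - 1 ≠ 0 := by linarith
        have e2 : (p : ℝ) ≠ 0 := by linarith
        have e3 : 1 + 1 / ((p : ℝ) - 1) = p / (p - 1) := by
          field_simp
          ring
        rw [e3, inv_div]
        field_simp
      have h4 : 1 / (p : ℝ) + 1 / ((p : ℝ) * (p - 1)) = 1 / ((p : ℝ) - 1) := by
        have e1 : (p : ℝ) - 1 ≠ 0 := by linarith
        have e2 : (p : ℝ) ≠ 0 := by linarith
        field_simp
        ring
      rw [h4, h3, Real.exp_neg]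
      apply inv_anti₀
      · have : 0 < 1 / ((p : ℝ) - 1) := by
          apply one_div_pos.2
          linarith
        linarith
      · have := Real.add_one_le_exp (1 / ((p : ℝ) - 1))
        linarith
    have h3 := prod_le_prod (fun p _ => (Real.exp_pos _).le) h2
    rw [← Real.exp_sum] at h3
    have h4 : ∑ p ∈ Pr 2 y, (1 / ((p : ℝ) * (p - 1))) ≤ 1 := by
      have h5 : Pr 2 y ⊆ Ico 2 (y + 1) := by
        intro p hp
        rw [Pr_mem] at hp
        rw [mem_Ico]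
        omega
      have h6 : ∑ p ∈ Pr 2 y, (1 / ((p : ℝ) * (p - 1))) ≤ ∑ p ∈ Ico 2 (y + 1), (1 / ((p : ℝ) * (p - 1))) := by
        apply sum_le_sum_of_subset_of_nonneg h5
        intro p hp _
        rw [mem_Ico] at hp
        have : (2 : ℝ) ≤ p := by exact_mod_cast hp.1
        apply one_div_nonneg.2
        nlinarith
      refine h6.trans ?_
      have h7 : ∀ m : ℕ, 2 ≤ m → ∑ p ∈ Ico 2 m, (1 / ((p : ℝ) * (p - 1))) = 1 - 1 / ((m : ℝ) - 1) := by
        intro m hm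
        induction m, hm using Nat.le_induction with
        | base => norm_num
        | succ m hm ih =>
          rw [Finset.sum_Ico_succ_top hm, ih]
          have hm2 : (2 : ℝ) ≤ m := by exact_mod_cast hm
          have e1 : (m : ℝ) - 1 ≠ 0 := by linarith
          have e2 : (m : ℝ) ≠ 0 := by linarith
          push_cast
          rw [add_sub_cancel_right]
          field_simp
          ring
      rw [h7 (y + 1) (by omega)]
      have : (0 : ℝ) ≤ 1 / (((y + 1 : ℕ) : ℝ) - 1) := by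
        push_cast
        rw [add_sub_cancel_right]
        positivity
      linarith
    have h5 : Real.exp (-(Real.log (Real.log y / Real.log 2) + C / Real.log 2 + 1)) ≤
        ∏ p ∈ Pr 2 y, (1 - 1 / (p : ℝ)) := by
      refine le_trans ?_ h3
      rw [Real.exp_le_exp, sum_neg_distrib, sum_add_distrib, hS]
      linarith [h1.2]
    have h6 : Real.exp (-(2 * C / Real.log 2)) * Real.log 2 / 8 / Real.log y ≤
        1 / 2 * Real.exp (-(Real.log (Real.log y / Real.log 2) + C / Real.log 2 + 1)) := by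
      have e1 : Real.exp (-(Real.log (Real.log y / Real.log 2) + C / Real.log 2 + 1)) =
          Real.exp (-(C / Real.log 2)) * Real.exp (-1) * (Real.log 2 / Real.log y) := by
        rw [show -(Real.log (Real.log y / Real.log 2) + C / Real.log 2 + 1) =
          -(C / Real.log 2) + -1 + -Real.log (Real.log y / Real.log 2) by ring, Real.exp_add,
          Real.exp_add, Real.exp_neg (Real.log _), Real.exp_log (by positivity), inv_div]
      rw [e1]
      have e2 : Real.exp (-(2 * C / Real.log 2)) ≤ Real.exp (-(C / Real.log 2)) := by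
        rw [Real.exp_le_exp]
        have : 0 ≤ C / Real.log 2 := by positivity
        have : 2 * C / Real.log 2 = 2 * (C / Real.log 2) := by ring
        linarith
      have e3 : (1 : ℝ) / 4 ≤ Real.exp (-1) := by
        rw [Real.exp_neg, one_div]
        apply inv_anti₀ (Real.exp_pos _)
        have := Real.exp_one_lt_d9
        linarith
      calc Real.exp (-(2 * C / Real.log 2)) * Real.log 2 / 8 / Real.log y
          = 1 / 2 * (Real.exp (-(2 * C / Real.log 2)) * (1 / 4) * (Real.log 2 / Real.log y)) := by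
            ring
        _ ≤ 1 / 2 * (Real.exp (-(C / Real.log 2)) * Real.exp (-1) * (Real.log 2 / Real.log y)) := by
            gcongr
    have h7 := mul_le_mul_of_nonneg_left h5 (show (0 : ℝ) ≤ 1 / 2 by norm_num)
    exact h6.trans h7
  · have h2 : ∀ p ∈ Pr 2 y, 1 - 1 / (p : ℝ) ≤ Real.exp (-(1 / (p : ℝ))) := by
      intro p _
      have := Real.add_one_le_exp (-(1 / (p : ℝ)))
      linarith
    have h3 := prod_le_prod (fun p hp => by
      have := (fac1 (Pr_prime hp)).1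
      linarith) h2
    rw [← Real.exp_sum, sum_neg_distrib, hS] at h3
    have h4 : Real.exp (-∑ p ∈ (Ioc 2 y).filter Nat.Prime, 1 / (p : ℝ)) ≤
        Real.exp (-(Real.log (Real.log y / Real.log 2) - C / Real.log 2)) := by
      rw [Real.exp_le_exp]
      linarith [h1.1]
    have e1 : Real.exp (-(Real.log (Real.log y / Real.log 2) - C / Real.log 2)) =
        Real.exp (C / Real.log 2) * (Real.log 2 / Real.log y) := by
      rw [show -(Real.log (Real.log y / Real.log 2) - C / Real.log 2) =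
        C / Real.log 2 + -Real.log (Real.log y / Real.log 2) by ring, Real.exp_add,
        Real.exp_neg (Real.log _), Real.exp_log (by positivity), inv_div]
    rw [e1] at h4
    have h5 : 0 ≤ Real.exp (C / Real.log 2) * (Real.log 2 / Real.log y) := by positivity
    have h6 : Real.exp (C / Real.log 2) * (Real.log 2 / Real.log y) =
        Real.exp (C / Real.log 2) * Real.log 2 / Real.log y := by ring
    have h7 := h3.trans h4
    linarith

theorem totient_real (n : ℕ) : (n.totient : ℝ) = n * ∏ p ∈ n.primeFactors, (1 - 1 / (p : ℝ)) := by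
  have h := Nat.totient_eq_mul_prod_factors n
  have h2 : ((n.totient : ℚ) : ℝ) = ((n * ∏ p ∈ n.primeFactors, (1 - (p : ℚ)⁻¹) : ℚ) : ℝ) := by
    rw [h]
  push_cast at h2
  rw [h2]
  congr 1
  apply Finset.prod_congr rfl
  intro p _
  rw [one_div]

theorem prodPF_split (n y : ℕ) (hn : n ≠ 0) : ∏ p ∈ n.primeFactors, (1 - 1 / (p : ℝ)) =
    (∏ p ∈ Pr 0 y, (if p ∣ n then 1 - 1 / (p : ℝ) else 1)) *
      ∏ p ∈ n.primeFactors.filter (fun p => ¬ p ≤ y), (1 - 1 / (p : ℝ)) := by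
  rw [← prod_filter_mul_prod_filter_not n.primeFactors (fun p => p ≤ y), ← prod_filter]
  congr 1
  apply prod_congr _ (fun _ _ => rfl)
  ext p
  rw [mem_filter, mem_filter, Pr_mem, Nat.mem_primeFactors]
  constructor
  · rintro ⟨⟨a, b, _⟩, d⟩
    exact ⟨⟨⟨a.pos, d⟩, a⟩, b⟩
  · rintro ⟨⟨⟨_, a⟩, b⟩, c⟩
    exact ⟨⟨b, c, hn⟩, a⟩

/-- upper bound for the sieve product -/
theorem VV_ZG_le (n y : ℕ) (hn0 : n ≠ 0) :
    VV (ZG n) 0 y * (n.totient / n) ≤ V1 y ^ 2 := by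
  have hnr : (n : ℝ) ≠ 0 := by exact_mod_cast hn0
  have e1 : (n.totient : ℝ) / n = ∏ p ∈ n.primeFactors, (1 - 1 / (p : ℝ)) := by
    rw [totient_real]
    field_simp
  rw [e1, prodPF_split n y hn0, ← mul_assoc]
  unfold VV V1
  rw [← prod_mul_distrib, ← prod_pow]
  have h1 : ∏ p ∈ n.primeFactors.filter (fun p => ¬ p ≤ y), (1 - 1 / (p : ℝ)) ≤ 1 :=
    Finset.prod_le_one (fun p hp => by
      have := (fac1 (Nat.prime_of_mem_primeFactors (mem_filter.1 hp).1)).1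
      linarith) (fun p hp => (fac1 (Nat.prime_of_mem_primeFactors (mem_filter.1 hp).1)).2)
  have h2 : ∀ p ∈ Pr 0 y, 0 ≤ (1 - ((ZG n p).card : ℝ) / p) * (if p ∣ n then 1 - 1 / (p : ℝ) else 1) ∧
      (1 - ((ZG n p).card : ℝ) / p) * (if p ∣ n then 1 - 1 / (p : ℝ) else 1) ≤ (1 - 1 / (p : ℝ)) ^ 2 := by
    intro p hp
    have hpp := Pr_prime hp
    have hp2 : (2 : ℝ) ≤ p := by exact_mod_cast hpp.two_le
    have h3 := (fac1 hpp).1
    rw [card_ZG]
    by_cases h : p ∣ n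
    · rw [if_pos h, if_pos h]
      push_cast
      constructor
      · positivity
      · rw [pow_two]
    · rw [if_neg h, if_neg h, mul_one]
      push_cast
      constructor
      · have : (2 : ℝ) / p ≤ 1 := by rw [div_le_one (by linarith)]; exact hp2
        linarith
      · have : (1 - 1 / (p : ℝ)) ^ 2 = 1 - 2 / p + (1 / (p : ℝ)) ^ 2 := by ring
        rw [this]
        have : 0 ≤ (1 / (p : ℝ)) ^ 2 := by positivity
        linarith
  have h3 : ∏ p ∈ Pr 0 y, ((1 - ((ZG n p).card : ℝ) / p) * (if p ∣ n then 1 - 1 / (p : ℝ) else 1)) ≤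
      ∏ p ∈ Pr 0 y, (1 - 1 / (p : ℝ)) ^ 2 :=
    prod_le_prod (fun p hp => (h2 p hp).1) (fun p hp => (h2 p hp).2)
  have h4 : 0 ≤ ∏ p ∈ Pr 0 y, ((1 - ((ZG n p).card : ℝ) / p) * (if p ∣ n then 1 - 1 / (p : ℝ) else 1)) :=
    prod_nonneg fun p hp => (h2 p hp).1
  exact (mul_le_of_le_one_right h4 h1).trans h3

/-- `log ⌊x ^ (1 / r)⌋ ≥ log x / (2 r)` -/
theorem log_floor (r : ℕ) (hr : 1 ≤ r) : ∃ n₀ : ℕ, ∀ n : ℕ, n₀ ≤ n →
    2 ≤ ⌊(n : ℝ) ^ (1 / (r : ℝ))⌋₊ ∧
    Real.log n / (2 * r) ≤ Real.log (⌊(n : ℝ) ^ (1 / (r : ℝ))⌋₊ : ℕ) := by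
  have hr0 : (0 : ℝ) < r := by exact_mod_cast hr
  have h2 := ((tendsto_rpow_atTop (show (0 : ℝ) < 1 / (2 * r) by positivity)).comp
    (tendsto_natCast_atTop_atTop (R := ℝ))).eventually (eventually_ge_atTop (2 : ℝ))
  rw [eventually_atTop] at h2
  obtain ⟨n₂, hn₂⟩ := h2
  refine ⟨max n₂ 1, ?_⟩
  intro n hn
  have h3 : (2 : ℝ) ≤ (n : ℝ) ^ (1 / (2 * r : ℝ)) := hn₂ n ((le_max_left _ _).trans hn)
  have hn0 : (0 : ℝ) < n := by exact_mod_cast (le_max_right n₂ 1).trans hn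
  have h4 : (n : ℝ) ^ (1 / (r : ℝ)) = (n : ℝ) ^ (1 / (2 * r : ℝ)) * (n : ℝ) ^ (1 / (2 * r : ℝ)) := by
    rw [← Real.rpow_add hn0]
    congr 1
    field_simp
    norm_num
  have h5 := Nat.lt_floor_add_one ((n : ℝ) ^ (1 / (r : ℝ)))
  have h6 : (n : ℝ) ^ (1 / (2 * r : ℝ)) ≤ (⌊(n : ℝ) ^ (1 / (r : ℝ))⌋₊ : ℕ) := by
    rw [h4] at h5 ⊢
    nlinarith
  constructor
  · have : (2 : ℝ) ≤ (⌊(n : ℝ) ^ (1 / (r : ℝ))⌋₊ : ℕ) := h3.trans h6
    exact_mod_cast this
  · have h7 := Real.log_le_log (by linarith) h6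
    rw [Real.log_rpow hn0] at h7
    refine le_trans (le_of_eq ?_) h7
    ring

/-- the order of the sieve product, upper bound -/
theorem V_up (r : ℕ) (hr : 1 ≤ r) : ∃ C : ℝ, 0 < C ∧ ∃ n₀ : ℕ, ∀ n : ℕ, n₀ ≤ n →
    VV (ZG n) 0 ⌊(n : ℝ) ^ (1 / (r : ℝ))⌋₊ ≤ C * (n / (n.totient * Real.log n ^ 2)) := by
  have hr0 : (0 : ℝ) < r := by exact_mod_cast hr
  obtain ⟨c, C, hc, hC, hV⟩ := V1_bounds
  obtain ⟨n₀, h0⟩ := log_floor r hr
  refine ⟨(C * (2 * r)) ^ 2, by positivity, max n₀ 2, ?_⟩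
  intro n hn
  obtain ⟨h1, h2⟩ := h0 n ((le_max_left _ _).trans hn)
  have hn2 : 2 ≤ n := (le_max_right _ _).trans hn
  have hnr : (0 : ℝ) < n := by exact_mod_cast (show 0 < n by omega)
  have hl : 0 < Real.log n := Real.log_pos (by exact_mod_cast (show 1 < n by omega))
  have hφ0 : (0 : ℝ) < n.totient := by exact_mod_cast Nat.totient_pos.2 (show 0 < n by omega)
  have h3 := VV_ZG_le n ⌊(n : ℝ) ^ (1 / (r : ℝ))⌋₊ (by omega)
  have h4 := (hV _ h1).2
  have h5 : V1 ⌊(n : ℝ) ^ (1 / (r : ℝ))⌋₊ ≤ C * (2 * r) / Real.log n := by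
    refine h4.trans ?_
    rw [div_le_div_iff₀ (lt_of_lt_of_le (by positivity) h2) hl]
    rw [div_le_iff₀ (by positivity)] at h2
    calc C * Real.log n ≤ C * (Real.log (⌊(n : ℝ) ^ (1 / (r : ℝ))⌋₊ : ℕ) * (2 * r)) :=
          mul_le_mul_of_nonneg_left h2 hC.le
      _ = _ := by ring
  have h6 := h3.trans (pow_le_pow_left₀ (V1_pos _).le h5 2)
  have h7 : VV (ZG n) 0 ⌊(n : ℝ) ^ (1 / (r : ℝ))⌋₊ * (n.totient / n) * (n / n.totient) ≤
      (C * (2 * r) / Real.log n) ^ 2 * (n / n.totient) :=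
    mul_le_mul_of_nonneg_right h6 (by positivity)
  have e1 : VV (ZG n) 0 ⌊(n : ℝ) ^ (1 / (r : ℝ))⌋₊ * (n.totient / n) * (n / n.totient) =
      VV (ZG n) 0 ⌊(n : ℝ) ^ (1 / (r : ℝ))⌋₊ := by
    field_simp
  rw [e1] at h7
  refine h7.trans (le_of_eq ?_)
  rw [div_pow]
  field_simp

end Pool.Agent.Y843.HG
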