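import Pool.Agent.Y843.HG.Gold
import Pool.Agent.Y79.HS.Loc

/-!
# The sieve product of Goldbach's problem: lower bound
-/

set_option autoImplicit false

namespace Pool.Agent.Y843.HG

open Finset Filter
open Pool.Agent.Y843.HS (Pr VV Pr_mem Pr_prime)

lemma tele (y : ℕ) : (1 / 2 : ℝ) * ((y + 2 : ℝ) / (y + 1)) =
    ∏ n ∈ Finset.Icc 3 (y + 2), (1 - 1 / ((n : ℝ) - 1) ^ 2) := by
  induction y with
  | zero => simp
  | succ y ih =>
    rw [show y + 1 + 2 = (y + 2) + 1 by ring, Finset.prod_Icc_succ_top (by omega), ← ih]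
    push_cast
    have h1 : ((y : ℝ) + 1) ≠ 0 := by positivity
    have h2 : ((y : ℝ) + 2) ≠ 0 := by positivity
    have h3 : ((y : ℝ) + 2 + 1 - 1) ≠ 0 := by
      have : ((y : ℝ) + 2 + 1 - 1) = y + 2 := by ring
      rw [this]
      exact h2
    have h4 : ((y : ℝ) + 1 + 1) ≠ 0 := by positivity
    field_simp
    ring

/-- the product over the odd primes of `1 - 1 / (p - 1) ^ 2` is at least `1 / 2` -/
lemma twin_prod (S : Finset ℕ) (hS : ∀ p ∈ S, 3 ≤ p) :
    (1 / 2 : ℝ) ≤ ∏ p ∈ S, (1 - 1 / ((p : ℝ) - 1) ^ 2) := by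
  obtain ⟨y, hy⟩ : ∃ y, y = S.sup id := ⟨_, rfl⟩
  have hsub : S ⊆ Finset.Icc 3 (y + 2) := by
    intro p hp
    rw [Finset.mem_Icc]
    have : p ≤ S.sup id := Finset.le_sup (f := id) hp
    exact ⟨hS p hp, by omega⟩
  have hfac : ∀ n ∈ Finset.Icc 3 (y + 2), (0 : ℝ) ≤ 1 - 1 / ((n : ℝ) - 1) ^ 2 ∧
      1 - 1 / ((n : ℝ) - 1) ^ 2 ≤ 1 := by
    intro n hn
    rw [Finset.mem_Icc] at hn
    have h3 : (3 : ℝ) ≤ n := by exact_mod_cast hn.1
    have h4 : (1 : ℝ) ≤ ((n : ℝ) - 1) ^ 2 := by nlinarith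
    constructor
    · rw [sub_nonneg, div_le_one (by linarith)]
      exact h4
    · have : 0 ≤ 1 / ((n : ℝ) - 1) ^ 2 := by positivity
      linarith
  have h1 : ∏ n ∈ Finset.Icc 3 (y + 2), (1 - 1 / ((n : ℝ) - 1) ^ 2) ≤
      ∏ p ∈ S, (1 - 1 / ((p : ℝ) - 1) ^ 2) := by
    rw [← Finset.prod_sdiff hsub]
    have h2 : ∏ n ∈ Finset.Icc 3 (y + 2) \ S, (1 - 1 / ((n : ℝ) - 1) ^ 2) ≤ 1 :=
      Finset.prod_le_one (fun n hn => (hfac n (Finset.mem_sdiff.1 hn).1).1)
        (fun n hn => (hfac n (Finset.mem_sdiff.1 hn).1).2)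
    have h3 : 0 ≤ ∏ p ∈ S, (1 - 1 / ((p : ℝ) - 1) ^ 2) :=
      Finset.prod_nonneg (fun n hn => (hfac n (hsub hn)).1)
    calc _ ≤ 1 * ∏ p ∈ S, (1 - 1 / ((p : ℝ) - 1) ^ 2) := mul_le_mul_of_nonneg_right h2 h3
      _ = _ := one_mul _
  refine le_trans ?_ h1
  rw [← tele]
  have : (1 : ℝ) ≤ ((y + 2 : ℝ) / (y + 1)) := by
    rw [le_div_iff₀ (by positivity)]
    linarith
  linarith

/-- lower bound for the sieve product -/
theorem VV_ZG_ge (n y : ℕ) (hn : Even n) (hn0 : n ≠ 0) (hy : 2 * Nat.log 2 n ≤ y) (hy0 : 0 < y) :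
    V1 y ^ 2 / 4 ≤ VV (ZG n) 0 y * (n.totient / n) := by
  have hnr : (n : ℝ) ≠ 0 := by exact_mod_cast hn0
  have e1 : (n.totient : ℝ) / n = ∏ p ∈ n.primeFactors, (1 - 1 / (p : ℝ)) := by
    rw [totient_real]
    field_simp
  rw [e1, prodPF_split n y hn0, ← mul_assoc]
  unfold VV V1
  rw [← prod_mul_distrib, ← prod_pow]
  have h1 : (1 : ℝ) / 2 ≤ ∏ p ∈ n.primeFactors.filter (fun p => ¬ p ≤ y), (1 - 1 / (p : ℝ)) := by
    have h2 := Pool.Agent.Y79.HS.one_sub_sum_le (n.primeFactors.filter (fun p => ¬ p ≤ y))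
      (fun p => 1 / (p : ℝ)) (fun p _ => by positivity) (fun p hp => by
        have := (fac1 (Nat.prime_of_mem_primeFactors (mem_filter.1 hp).1)).1
        linarith)
    refine le_trans ?_ h2
    have hy0' : (0 : ℝ) < y := by exact_mod_cast hy0
    have h3 : ∑ p ∈ n.primeFactors.filter (fun p => ¬ p ≤ y), 1 / (p : ℝ) ≤ 1 / 2 := by
      calc ∑ p ∈ n.primeFactors.filter (fun p => ¬ p ≤ y), 1 / (p : ℝ)
          ≤ ∑ _p ∈ n.primeFactors.filter (fun p => ¬ p ≤ y), 1 / (y : ℝ) := by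
            apply sum_le_sum
            intro p hp
            rw [mem_filter] at hp
            apply one_div_le_one_div_of_le hy0'
            exact_mod_cast (not_le.1 hp.2).le
        _ = ((n.primeFactors.filter (fun p => ¬ p ≤ y)).card : ℝ) * (1 / y) := by
            rw [sum_const, nsmul_eq_mul]
        _ ≤ (Nat.log 2 n : ℝ) * (1 / y) := by
            apply mul_le_mul_of_nonneg_right _ (by positivity)
            have h4 : (n.primeFactors.filter (fun p => ¬ p ≤ y)).card ≤ Nat.log 2 n := by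
              refine (card_filter_le _ _).trans ?_
              have h5 : 2 ^ n.primeFactors.card ≤ n := by
                calc 2 ^ n.primeFactors.card = ∏ _p ∈ n.primeFactors, 2 := by rw [prod_const]
                  _ ≤ ∏ p ∈ n.primeFactors, p :=
                      Finset.prod_le_prod' fun p hp => (Nat.prime_of_mem_primeFactors hp).two_le
                  _ ≤ n := Nat.le_of_dvd (Nat.pos_of_ne_zero hn0) (Nat.prod_primeFactors_dvd n)
              exact Nat.le_log_of_pow_le (by norm_num) h5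
            exact_mod_cast h4
        _ ≤ 1 / 2 := by
            rw [mul_one_div, div_le_div_iff₀ hy0' (by norm_num)]
            have : ((2 * Nat.log 2 n : ℕ) : ℝ) ≤ y := by exact_mod_cast hy
            push_cast at this
            linarith
    linarith
  have h2 : (∏ p ∈ Pr 0 y, (1 - 1 / (p : ℝ)) ^ 2) * (1 / 2) ≤
      ∏ p ∈ Pr 0 y, ((1 - ((ZG n p).card : ℝ) / p) * (if p ∣ n then 1 - 1 / (p : ℝ) else 1)) := by
    have h3 : ∀ p ∈ Pr 0 y, (1 - ((ZG n p).card : ℝ) / p) * (if p ∣ n then 1 - 1 / (p : ℝ) else 1) =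
        (1 - 1 / (p : ℝ)) ^ 2 * (if p ∣ n then 1 else 1 - 1 / ((p : ℝ) - 1) ^ 2) := by
      intro p hp
      have hp2 : (2 : ℝ) ≤ p := by exact_mod_cast (Pr_prime hp).two_le
      have a1 : (p : ℝ) ≠ 0 := by linarith
      have a2 : (p : ℝ) - 1 ≠ 0 := by linarith
      rw [card_ZG]
      by_cases h : p ∣ n
      · rw [if_pos h, if_pos h, if_pos h]
        push_cast
        ring
      · rw [if_neg h, if_neg h, if_neg h]
        push_cast
        field_simp
        ring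
    rw [prod_congr rfl h3, prod_mul_distrib]
    apply mul_le_mul_of_nonneg_left _ (prod_nonneg fun p _ => by positivity)
    have h4 : ∏ p ∈ Pr 0 y, (if p ∣ n then (1 : ℝ) else 1 - 1 / ((p : ℝ) - 1) ^ 2) =
        ∏ p ∈ (Pr 0 y).filter (fun p => ¬ p ∣ n), (1 - 1 / ((p : ℝ) - 1) ^ 2) := by
      rw [prod_filter]
      apply prod_congr rfl
      intro p _
      by_cases h : p ∣ n
      · simp [h]
      · simp [h]
    rw [h4]
    apply twin_prod
    intro p hp
    rw [mem_filter] at hp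
    have h5 := (Pr_prime hp.1).two_le
    rcases eq_or_lt_of_le h5 with h6 | h6
    · exfalso
      apply hp.2
      rw [← h6]
      exact hn.two_dvd
    · exact h6
  have h3 : 0 ≤ ∏ p ∈ Pr 0 y, (1 - 1 / (p : ℝ)) ^ 2 := prod_nonneg fun p _ => by positivity
  have h4 := mul_le_mul h2 h1 (by norm_num) (le_trans (by positivity) h2)
  linarith

/-- the order of the sieve product, lower bound -/
theorem V_dn (r : ℕ) (hr : 1 ≤ r) : ∃ c : ℝ, 0 < c ∧ ∃ n₀ : ℕ, ∀ n : ℕ, n₀ ≤ n → Even n →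
    c * (n / (n.totient * Real.log n ^ 2)) ≤ VV (ZG n) 0 ⌊(n : ℝ) ^ (1 / (r : ℝ))⌋₊ := by
  have hr0 : (0 : ℝ) < r := by exact_mod_cast hr
  obtain ⟨c, C, hc, hC, hV⟩ := V1_bounds
  obtain ⟨n₀, h0⟩ := log_floor r hr
  -- `4 log n + 1 ≤ n ^ (1 / r)`
  have h2 := (isLittleO_log_rpow_atTop (show (0 : ℝ) < 1 / r by positivity)).bound
    (show (0 : ℝ) < 1 / 8 by norm_num)
  have h3 := (tendsto_rpow_atTop (show (0 : ℝ) < 1 / r by positivity)).eventually
    (eventually_ge_atTop (2 : ℝ))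
  have h4 := (tendsto_natCast_atTop_atTop (R := ℝ)).eventually (h2.and h3)
  rw [eventually_atTop] at h4
  obtain ⟨n₁, h5⟩ := h4
  refine ⟨c ^ 2 / 4, by positivity, max (max n₀ n₁) 2, ?_⟩
  intro n hn hne
  obtain ⟨h1, h2'⟩ := h0 n ((le_max_left _ _).trans ((le_max_left _ _).trans hn))
  obtain ⟨h6, h7⟩ := h5 n ((le_max_right _ _).trans ((le_max_left _ _).trans hn))
  have hn2 : 2 ≤ n := (le_max_right _ _).trans hn
  have hnr : (0 : ℝ) < n := by exact_mod_cast (show 0 < n by omega)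
  have hn1 : (1 : ℝ) ≤ n := by exact_mod_cast (show 1 ≤ n by omega)
  have hl : 0 < Real.log n := Real.log_pos (by exact_mod_cast (show 1 < n by omega))
  have hφ0 : (0 : ℝ) < n.totient := by exact_mod_cast Nat.totient_pos.2 (show 0 < n by omega)
  set w := (n : ℝ) ^ (1 / (r : ℝ)) with hw
  rw [Real.norm_of_nonneg hl.le, Real.norm_of_nonneg (by positivity)] at h6
  have hwY := Nat.lt_floor_add_one w
  have hlog2 : 2 * Nat.log 2 n ≤ ⌊w⌋₊ := by
    apply Nat.le_floor
    push_cast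
    have a1 : (Nat.log 2 n : ℝ) ≤ Real.log n / Real.log 2 := by
      rw [le_div_iff₀ (Real.log_pos (by norm_num))]
      have a2 : (2 : ℝ) ^ Nat.log 2 n ≤ n := by exact_mod_cast Nat.pow_log_le_self 2 (by omega)
      have a3 := Real.log_le_log (by positivity) a2
      rwa [Real.log_pow] at a3
    have a2 : Real.log n / Real.log 2 ≤ 2 * Real.log n := by
      rw [div_le_iff₀ (Real.log_pos (by norm_num))]
      have := Real.log_two_gt_d9
      nlinarith
    linarith
  have h8 := VV_ZG_ge n ⌊w⌋₊ hne (by omega) hlog2 (by omega)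
  have h9 := (hV _ h1).1
  have h10 : c / Real.log n ≤ V1 ⌊w⌋₊ := by
    refine le_trans ?_ h9
    have hpos : 0 < Real.log (⌊w⌋₊ : ℕ) := Real.log_pos (by exact_mod_cast (show 1 < ⌊w⌋₊ by omega))
    apply div_le_div_of_nonneg_left hc.le hpos
    apply Real.log_le_log (by exact_mod_cast (show 0 < ⌊w⌋₊ by omega))
    have : w ≤ n := by
      calc w ≤ (n : ℝ) ^ (1 : ℝ) := by
            apply Real.rpow_le_rpow_of_exponent_le hn1
            rw [div_le_one hr0]
            exact_mod_cast hr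
        _ = n := Real.rpow_one _
    exact (Nat.floor_le (by positivity)).trans this
  have h11 := pow_le_pow_left₀ (by positivity) h10 2
  have h12 : (c / Real.log n) ^ 2 / 4 * (n / n.totient) ≤
      VV (ZG n) 0 ⌊w⌋₊ * (n.totient / n) * (n / n.totient) := by
    apply mul_le_mul_of_nonneg_right _ (by positivity)
    linarith
  have e1 : VV (ZG n) 0 ⌊w⌋₊ * (n.totient / n) * (n / n.totient) = VV (ZG n) 0 ⌊w⌋₊ := by
    field_simp
  rw [e1] at h12
  refine le_trans (le_of_eq ?_) h12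
  rw [div_pow]
  field_simp

end Pool.Agent.Y843.HG
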