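import Pool.Agent.Y843.HG.Prs
import Pool.Agent.Y843.HG.VLow

/-!
# Every large even number as the sum of a prime and an almost prime, in progressions
-/

set_option autoImplicit false

namespace Pool.Agent.Y843.HG

open Finset Filter
open Pool.Agent.Y843.HS (Pr VV Pr_mem Pr_prime)

open Classical in
/-- the primes `p < N` such that all prime factors of `N - p` exceed `N ^ (1 / t)` -/
noncomputable def CS (t N : ℕ) : Finset ℕ :=
  (range N).filter (fun p => p.Prime ∧ ∀ q : ℕ, q.Prime → q ∣ N - p → (N : ℝ) ^ (1 / (t : ℝ)) < q)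

theorem Z0_erase (N p : ℕ) : Z0 (fun p => (ZG N p).erase 0) p = ZG N p := by
  unfold Z0
  exact insert_erase (by unfold ZG; exact mem_insert_self _ _)

theorem ZG_adm {N : ℕ} (hN : Even N) (Y : ℕ) : Adm 1 Y (fun p => (ZG N p).erase 0) := by
  intro p hp
  obtain ⟨h1, h2, h3⟩ := ZG_ok hN (Pr_prime hp)
  have h0 : 0 ∈ ZG N p := by unfold ZG; exact mem_insert_self _ _
  have h4 := card_erase_add_one h0
  refine ⟨?_, ?_, ?_, ?_⟩
  · simp only
    omega
  · simp only
    omega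
  · exact notMem_erase _ _
  · intro c hc
    exact h3 c (mem_of_mem_erase hc)

/-- lower bound for the number of the representations -/
theorem CS_count : ∃ t : ℕ, 1 ≤ t ∧ ∃ c : ℝ, 0 < c ∧ ∃ n₀ : ℕ, ∀ N : ℕ, n₀ ≤ N → Even N →
    c * ((N : ℝ) ^ 2 / (N.totient * Real.log N ^ 2)) ≤ (CS t N).card := by
  classical
  obtain ⟨t, ht, c, hc, X₀, h⟩ := SP_count 1
  obtain ⟨c', hc', n₁, h'⟩ := V_dn t ht
  refine ⟨t, ht, c * c', by positivity, max (max X₀ n₁) 3, ?_⟩
  intro N hN hNe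
  have hN3 : 3 ≤ N := (le_max_right _ _).trans hN
  have h1 := h N ((le_max_left _ _).trans ((le_max_left _ _).trans hN)) _ (ZG_adm hNe _)
  have h2 := h' N ((le_max_right _ _).trans ((le_max_left _ _).trans hN)) hNe
  set w := (N : ℝ) ^ (1 / (t : ℝ)) with hw
  have h3 : VV (Z0 (fun p => (ZG N p).erase 0)) 0 ⌊w⌋₊ = VV (ZG N) 0 ⌊w⌋₊ := by
    unfold VV
    apply prod_congr rfl
    intro p _
    rw [Z0_erase]
  rw [h3] at h1
  have h4 : SP (fun p => (ZG N p).erase 0) N ⌊w⌋₊ ⊆ CS t N := by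
    intro p hp
    unfold SP at hp
    rw [mem_filter, mem_Ioc] at hp
    obtain ⟨⟨hp0, hpN⟩, hpp, hp1⟩ := hp
    have hlt : p < N := by
      rcases eq_or_lt_of_le hpN with h5 | h5
      · exfalso
        rw [h5] at hpp
        rcases hpp.eq_two_or_odd' with h6 | h6
        · omega
        · exact (Nat.not_even_iff_odd.2 h6) hNe
      · exact h5
    unfold CS
    rw [mem_filter, mem_range]
    refine ⟨hlt, hpp, ?_⟩
    intro q hq hqN
    by_contra hcon
    rw [not_lt] at hcon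
    have hqw : q ≤ ⌊w⌋₊ := Nat.le_floor hcon
    have h5 := hp1 q (Pr_mem.2 ⟨⟨hq.pos, hqw⟩, hq⟩)
    apply h5
    rw [Z0_erase]
    unfold ZG
    rw [mem_insert, mem_singleton]
    right
    exact (Nat.modEq_iff_dvd' hlt.le).2 hqN
  calc c * c' * ((N : ℝ) ^ 2 / (N.totient * Real.log N ^ 2))
      = c * N * (c' * (N / (N.totient * Real.log N ^ 2))) := by ring
    _ ≤ c * N * VV (ZG N) 0 ⌊w⌋₊ := mul_le_mul_of_nonneg_left h2 (by positivity)
    _ ≤ (SP (fun p => (ZG N p).erase 0) N ⌊w⌋₊).card := h1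
    _ ≤ (CS t N).card := by exact_mod_cast card_le_card h4

/-- all but few elements of every set of such primes lie in narrow progressions -/
theorem CS_iso (t : ℕ) (ht : 2 ≤ t) {k : ℕ} (hk : 1 ≤ k) {ε : ℝ} (hε : 0 < ε) :
    ∃ B n₀ : ℕ, ∀ N : ℕ, n₀ ≤ N → Even N → ∀ S : Finset ℕ, S ⊆ CS t N →
      ((Iso k (Real.log N ^ B) S).card : ℝ) ≤ ε * ((N : ℝ) ^ 2 / (N.totient * Real.log N ^ 2)) := by
  classical
  have ht0 : (0 : ℝ) < t := by exact_mod_cast (show 0 < t by omega)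
  obtain ⟨B, n₁, h⟩ := gold hk t (by omega) (θ := 1) one_pos (show 0 < ε / 2 by positivity)
  -- `(N ^ (1 / t) + 1) log² N ≤ (ε / 2) N`
  have hlit : ∀ᶠ x : ℝ in atTop, (x ^ (1 / (t : ℝ)) + 1) * Real.log x ^ 2 ≤ ε / 2 * x := by
    have h1 := (isLittleO_log_rpow_atTop (show (0 : ℝ) < 1 / 8 by norm_num)).bound
      (show (0 : ℝ) < 1 by norm_num)
    have h2 := (tendsto_rpow_atTop (show (0 : ℝ) < 1 / 4 by norm_num)).eventually
      (eventually_ge_atTop (2 / (ε / 2)))
    filter_upwards [h1, h2, eventually_ge_atTop 1] with x hx1 hx2 hx3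
    have hx0 : 0 < x := by linarith
    have hl0 : 0 ≤ Real.log x := Real.log_nonneg hx3
    rw [one_mul, Real.norm_of_nonneg hl0, Real.norm_of_nonneg (by positivity)] at hx1
    have e1 : Real.log x ^ 2 ≤ x ^ (1 / 4 : ℝ) := by
      calc Real.log x ^ 2 ≤ (x ^ (1 / 8 : ℝ)) ^ 2 := pow_le_pow_left₀ hl0 hx1 2
        _ = x ^ (1 / 4 : ℝ) := by
            rw [← Real.rpow_natCast, ← Real.rpow_mul hx0.le]
            congr 1
            norm_num
    have e2 : x ^ (1 / (t : ℝ)) ≤ x ^ (1 / 2 : ℝ) := by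
      apply Real.rpow_le_rpow_of_exponent_le hx3
      apply one_div_le_one_div_of_le (by norm_num)
      exact_mod_cast ht
    have e3 : (1 : ℝ) ≤ x ^ (1 / 2 : ℝ) := Real.one_le_rpow hx3 (by norm_num)
    rw [div_le_iff₀ (by positivity)] at hx2
    calc (x ^ (1 / (t : ℝ)) + 1) * Real.log x ^ 2 ≤ (2 * x ^ (1 / 2 : ℝ)) * x ^ (1 / 4 : ℝ) := by
          apply mul_le_mul (by linarith) e1 (by positivity) (by positivity)
      _ ≤ ((x ^ (1 / 4 : ℝ) * (ε / 2)) * x ^ (1 / 2 : ℝ)) * x ^ (1 / 4 : ℝ) := by gcongr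
      _ = ε / 2 * (x ^ (1 / 4 : ℝ) * x ^ (1 / 2 : ℝ) * x ^ (1 / 4 : ℝ)) := by ring
      _ = ε / 2 * x := by
          rw [← Real.rpow_add hx0, ← Real.rpow_add hx0]
          norm_num
  have hlit' := (tendsto_natCast_atTop_atTop (R := ℝ)).eventually hlit
  rw [eventually_atTop] at hlit'
  obtain ⟨n₂, hn₂⟩ := hlit'
  refine ⟨B, max (max n₁ n₂) 3, ?_⟩
  intro N hN hNe S hS
  have hnn₁ : n₁ ≤ N := (le_max_left _ _).trans ((le_max_left _ _).trans hN)
  have hnn₂ := hn₂ N ((le_max_right _ _).trans ((le_max_left _ _).trans hN))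
  have hN3 : 3 ≤ N := (le_max_right _ _).trans hN
  have hN0 : (0 : ℝ) < N := by exact_mod_cast (show 0 < N by omega)
  have hl0 : 0 < Real.log N := Real.log_pos (by exact_mod_cast (show 1 < N by omega))
  have hφ0 : (0 : ℝ) < N.totient := by exact_mod_cast Nat.totient_pos.2 (show 0 < N by omega)
  set w := (N : ℝ) ^ (1 / (t : ℝ)) with hw
  have hw0 : 0 ≤ w := by positivity
  set S₁ := S.filter (fun p : ℕ => w < (p : ℝ)) with hS₁
  set S₂ := S.filter (fun p : ℕ => ¬ w < (p : ℝ)) with hS₂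
  have hS₁S : S₁ ⊆ S := filter_subset _ _
  have hmem : ∀ p ∈ S, p < N ∧ p.Prime ∧ ∀ q : ℕ, q.Prime → q ∣ N - p → w < q := by
    intro p hp
    have h1 := hS hp
    unfold CS at h1
    rw [mem_filter, mem_range] at h1
    exact h1
  have h1 := h N hnn₁ hNe 0 N (by rw [Real.rpow_one]) le_rfl S₁ (by
    intro p hp
    rw [mem_Ioc]
    obtain ⟨h2, h3, _⟩ := hmem p (hS₁S hp)
    exact ⟨h3.pos, by omega⟩) (by
    intro p hp q hq hqw
    rw [hS₁, mem_filter] at hp
    obtain ⟨hpS, hp1⟩ := hp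
    obtain ⟨h2, h3, h4⟩ := hmem p hpS
    constructor
    · intro hqp
      rw [(Nat.prime_dvd_prime_iff_eq hq h3).1 hqp] at hqw
      linarith
    · intro hmod
      have h5 : q ∣ N - p := (Nat.modEq_iff_dvd' h2.le).1 hmod.symm
      have := h4 q hq h5
      linarith)
  have h2 : Iso k (Real.log N ^ B) S ⊆ Iso k (Real.log N ^ B) S₁ ∪ S₂ := by
    intro p hp
    unfold Iso at hp
    rw [mem_filter] at hp
    rw [mem_union]
    by_cases h3 : w < (p : ℝ)
    · left
      unfold Iso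
      rw [mem_filter]
      exact ⟨by rw [hS₁, mem_filter]; exact ⟨hp.1, h3⟩, fun hcon => hp.2 (hcon.mono le_rfl hS₁S)⟩
    · right
      rw [hS₂, mem_filter]
      exact ⟨hp.1, h3⟩
  have h3 : (S₂.card : ℝ) ≤ w + 1 := by
    have h4 : S₂ ⊆ Icc 0 ⌊w⌋₊ := by
      intro p hp
      rw [hS₂, mem_filter, not_lt] at hp
      rw [mem_Icc]
      exact ⟨Nat.zero_le _, Nat.le_floor hp.2⟩
    have h5 := card_le_card h4
    rw [Nat.card_Icc] at h5
    have h6 : (S₂.card : ℝ) ≤ ((⌊w⌋₊ + 1 - 0 : ℕ) : ℝ) := by exact_mod_cast h5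
    rw [Nat.sub_zero] at h6
    push_cast at h6
    have := Nat.floor_le hw0
    linarith
  have h4 : w + 1 ≤ ε / 2 * ((N : ℝ) ^ 2 / (N.totient * Real.log N ^ 2)) := by
    have h5 : (N : ℝ) / Real.log N ^ 2 ≤ (N : ℝ) ^ 2 / (N.totient * Real.log N ^ 2) := by
      rw [div_le_div_iff₀ (by positivity) (by positivity)]
      have h6 : (N.totient : ℝ) ≤ N := by exact_mod_cast Nat.totient_le N
      calc (N : ℝ) * (N.totient * Real.log N ^ 2) ≤ N * (N * Real.log N ^ 2) := by gcongr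
        _ = (N : ℝ) ^ 2 * Real.log N ^ 2 := by ring
    calc w + 1 ≤ ε / 2 * (N / Real.log N ^ 2) := by
          rw [← mul_div_assoc, le_div_iff₀ (by positivity)]
          exact hnn₂
      _ ≤ _ := mul_le_mul_of_nonneg_left h5 (by positivity)
  have h5 : ((Iso k (Real.log N ^ B) S).card : ℝ) ≤
      ((Iso k (Real.log N ^ B) S₁).card : ℝ) + S₂.card := by
    have := (card_le_card h2).trans (card_union_le _ _)
    exact_mod_cast this
  have h6 : (N : ℝ) * (N / (N.totient * Real.log N ^ 2)) = (N : ℝ) ^ 2 / (N.totient * Real.log N ^ 2) := by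
    ring
  rw [h6] at h1
  linarith

/-- the number of the prime factors -/
theorem length_le (m t : ℕ) (x : ℝ) (hx : 0 < x) (hm : m ≠ 0) (hmx : (m : ℝ) < x)
    (h : ∀ q : ℕ, q.Prime → q ∣ m → x ^ (1 / (t : ℝ)) < q) (ht : 1 ≤ t) :
    m.primeFactorsList.length < t := by
  by_contra hcon
  rw [not_lt] at hcon
  have ht0 : (t : ℝ) ≠ 0 := by exact_mod_cast (by omega : t ≠ 0)
  have h1 : ((m.primeFactorsList.map (fun q : ℕ => (q : ℝ))).prod) = m := by
    rw [← Nat.cast_list_prod, Nat.prod_primeFactorsList hm]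
  have h2 : (x ^ (1 / (t : ℝ))) ^ m.primeFactorsList.length ≤
      (m.primeFactorsList.map (fun q : ℕ => (q : ℝ))).prod := by
    have key : ∀ l : List ℕ, (∀ q ∈ l, x ^ (1 / (t : ℝ)) ≤ (q : ℝ)) →
        (x ^ (1 / (t : ℝ))) ^ l.length ≤ (l.map (fun q : ℕ => (q : ℝ))).prod := by
      intro l
      induction l with
      | nil => intro _; simp
      | cons q l ih =>
        intro hl
        rw [List.map_cons, List.prod_cons, List.length_cons, pow_succ, mul_comm]
        exact mul_le_mul (hl q (by simp)) (ih (fun q' hq' => hl q' (by simp [hq']))) (by positivity)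
          (Nat.cast_nonneg _)
    apply key
    intro q hq
    rw [Nat.mem_primeFactorsList hm] at hq
    exact (h q hq.1 hq.2).le
  rw [h1] at h2
  rcases eq_or_ne m 1 with hm1 | hm1
  · rw [hm1] at hcon
    simp at hcon
    omega
  · have hx1 : 1 ≤ x := by
      have : (1 : ℝ) ≤ m := by exact_mod_cast Nat.one_le_iff_ne_zero.2 hm
      linarith
    have h3 : x ≤ (x ^ (1 / (t : ℝ))) ^ m.primeFactorsList.length := by
      calc x = (x ^ (1 / (t : ℝ))) ^ t := by
            rw [← Real.rpow_natCast, ← Real.rpow_mul hx.le, one_div_mul_cancel ht0, Real.rpow_one]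
        _ ≤ _ := pow_le_pow_right₀ (Real.one_le_rpow hx1 (by positivity)) hcon
    linarith

end Pool.Agent.Y843.HG
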