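import Pool.Agent.Y843.HS.Top

/-!
# Almost all elements of a set relative to a sifted set lie in narrow progressions
-/

set_option autoImplicit false

namespace Pool.Agent.Y843.HG

open Finset
open Pool.Agent.Y843.HS

/-- `m` is a term of a progression of `k` elements of `S` with a difference in `[1, D]` -/
def InAP (k : ℕ) (D : ℝ) (S : Finset ℕ) (m : ℕ) : Prop :=
  ∃ a d : ℕ, 1 ≤ d ∧ (d : ℝ) ≤ D ∧ (∀ j < k, a + j * d ∈ S) ∧ ∃ j < k, m = a + j * d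

theorem InAP.mono {k : ℕ} {D D' : ℝ} {S S' : Finset ℕ} {m : ℕ} (hD : D ≤ D') (hS : S ⊆ S')
    (h : InAP k D S m) : InAP k D' S' m := by
  obtain ⟨a, d, h1, h2, h3, h4⟩ := h
  exact ⟨a, d, h1, h2.trans hD, fun j hj => hS (h3 j hj), h4⟩

open Classical in
/-- the elements outside of the progressions -/
noncomputable def Iso (k : ℕ) (D : ℝ) (S : Finset ℕ) : Finset ℕ := S.filter (fun m => ¬ InAP k D S m)

theorem Iso_sub (k : ℕ) (D : ℝ) (S : Finset ℕ) : Iso k D S ⊆ S := by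
  classical
  exact filter_subset _ _

/-- the exceptional set contains no progression -/
theorem not_ap_Iso {k : ℕ} (hk : 1 ≤ k) {D : ℝ} {S : Finset ℕ} :
    ¬ ∃ a d : ℕ, 1 ≤ d ∧ (d : ℝ) ≤ D ∧ ∀ j < k, a + j * d ∈ Iso k D S := by
  classical
  rintro ⟨a, d, h1, h2, h3⟩
  have h4 := h3 0 (by omega)
  unfold Iso at h4
  rw [mem_filter] at h4
  apply h4.2
  refine ⟨a, d, h1, h2, fun j hj => Iso_sub _ _ _ (h3 j hj), 0, by omega, rfl⟩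

/-- almost all elements lie in narrow progressions -/
theorem fin_iso {k : ℕ} (hk : 1 ≤ k) (r : ℕ) {κ ε : ℝ} (hκ : 0 < κ) (hε : 0 < ε) : ∃ B X₀ : ℕ,
    ∀ X A : ℕ, X₀ ≤ X → ∀ Z : ℕ → Finset ℕ, (∀ p : ℕ, p.Prime → (p : ℝ) ≤ (X : ℝ) ^ κ →
      (Z p).card ≤ r ∧ (Z p).card < p ∧ ∀ c ∈ Z p, c < p) →
    ∀ S : Finset ℕ, S ⊆ Ioc A (A + X) →
      (∀ n ∈ S, ∀ p : ℕ, p.Prime → (p : ℝ) ≤ (X : ℝ) ^ κ → n % p ∉ Z p) →
      ((Iso k (Real.log X ^ B) S).card : ℝ) < ε * X * VV Z 0 ⌊(X : ℝ) ^ κ⌋₊ := by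
  obtain ⟨B, X₀, h⟩ := fin k r κ ε hκ hε
  refine ⟨B, X₀, ?_⟩
  intro X A hX Z hZ S hSA hSZ
  by_contra hcon
  rw [not_lt] at hcon
  exact not_ap_Iso hk (h X A hX Z hZ (Iso k (Real.log X ^ B) S) ((Iso_sub _ _ _).trans hSA)
    (fun n hn => hSZ n (Iso_sub _ _ _ hn)) hcon)

end Pool.Agent.Y843.HG
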