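import Pool.Agent.Y843.HG.VGold

/-!
# Goldbach representations: almost all lie in narrow progressions
-/

set_option autoImplicit false

namespace Pool.Agent.Y843.HG

open Finset Filter
open Pool.Agent.Y843.HS (Pr VV Pr_mem)

theorem ZG_ok {n : ℕ} (hn : Even n) {p : ℕ} (hp : p.Prime) :
    (ZG n p).card ≤ 2 ∧ (ZG n p).card < p ∧ ∀ c ∈ ZG n p, c < p := by
  refine ⟨?_, ?_, ?_⟩
  · rw [card_ZG]
    split_ifs <;> norm_num
  · rw [card_ZG]
    split_ifs with h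
    · exact hp.one_lt
    · rcases hp.eq_two_or_odd with h2 | h2
      · exfalso
        apply h
        rw [h2]
        exact hn.two_dvd
      · have := hp.two_le
        omega
  · intro c hc
    unfold ZG at hc
    rw [mem_insert, mem_singleton] at hc
    rcases hc with h | h
    · rw [h]; exact hp.pos
    · rw [h]; exact Nat.mod_lt _ hp.pos

/-- the numbers `m` such that neither `m` nor `n - m` has a prime factor `≤ n ^ (1 / r)` -/
def RoughRep (r n m : ℕ) : Prop := ∀ p : ℕ, p.Prime → (p : ℝ) ≤ (n : ℝ) ^ (1 / (r : ℝ)) →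
  ¬ p ∣ m ∧ n % p ≠ m % p

theorem Iso_anti {k : ℕ} {D D' : ℝ} (h : D ≤ D') (S : Finset ℕ) : Iso k D' S ⊆ Iso k D S := by
  classical
  intro m hm
  unfold Iso at hm ⊢
  rw [mem_filter] at hm ⊢
  exact ⟨hm.1, fun hcon => hm.2 (hcon.mono h (Subset.refl S))⟩

/-- **windows of the rough representations** -/
theorem gold {k : ℕ} (hk : 1 ≤ k) (r : ℕ) (hr : 1 ≤ r) {θ ε : ℝ} (hθ : 0 < θ) (hε : 0 < ε) :
    ∃ B n₀ : ℕ, ∀ n : ℕ, n₀ ≤ n → Even n → ∀ y H : ℕ, (n : ℝ) ^ θ ≤ H → H ≤ n →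
    ∀ S : Finset ℕ, S ⊆ Ioc y (y + H) → (∀ m ∈ S, RoughRep r n m) →
      ((Iso k (Real.log n ^ B) S).card : ℝ) ≤ ε * (H * (n / (n.totient * Real.log n ^ 2))) := by
  have hr0 : (0 : ℝ) < r := by exact_mod_cast hr
  set r' := max 2 ⌈(r : ℝ) / θ⌉₊ with hr'
  have hr'0 : (0 : ℝ) < r' := by exact_mod_cast (show 0 < r' by omega)
  have hr'1 : (r : ℝ) / θ ≤ r' := (Nat.le_ceil _).trans (by exact_mod_cast le_max_right _ _)
  obtain ⟨C, hC, n₁, hn₁⟩ := V_up r' (by omega)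
  obtain ⟨B, X₀, hB⟩ := fin_iso hk 2 (κ := 1 / (r : ℝ)) (ε := ε / C) (by positivity)
    (by positivity)
  -- `X₀ ≤ n ^ θ`
  have h2 := ((tendsto_rpow_atTop hθ).comp (tendsto_natCast_atTop_atTop (R := ℝ))).eventually
    (eventually_ge_atTop (X₀ : ℝ))
  rw [eventually_atTop] at h2
  obtain ⟨n₂, hn₂⟩ := h2
  refine ⟨B, max (max n₁ n₂) 3, ?_⟩
  intro n hn hne y H hH hHn S hS hrough
  have hnn₁ : n₁ ≤ n := (le_max_left _ _).trans ((le_max_left _ _).trans hn)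
  have hnn₂ : n₂ ≤ n := (le_max_right _ _).trans ((le_max_left _ _).trans hn)
  have hn3 : 3 ≤ n := (le_max_right _ _).trans hn
  have hn0 : (0 : ℝ) < n := by exact_mod_cast (show 0 < n by omega)
  have hn1 : (1 : ℝ) ≤ n := by exact_mod_cast (show 1 ≤ n by omega)
  have h3 : (X₀ : ℝ) ≤ (n : ℝ) ^ θ := hn₂ n hnn₂
  have hX₀H : X₀ ≤ H := by exact_mod_cast h3.trans hH
  have hnθ1 : 1 ≤ (n : ℝ) ^ θ := Real.one_le_rpow hn1 hθ.le
  have hH1 : (1 : ℝ) ≤ H := hnθ1.trans hH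
  have hH0 : (0 : ℝ) < H := by linarith
  have hHnr : (H : ℝ) ≤ n := by exact_mod_cast hHn
  have hκ : (H : ℝ) ^ (1 / (r : ℝ)) ≤ (n : ℝ) ^ (1 / (r : ℝ)) :=
    Real.rpow_le_rpow hH0.le hHnr (by positivity)
  have hZ : ∀ p : ℕ, p.Prime → (ZG n p).card ≤ 2 ∧ (ZG n p).card < p ∧ ∀ c ∈ ZG n p, c < p :=
    fun p hp => ZG_ok hne hp
  have h4 := hB H y hX₀H (ZG n) (fun p hp _ => hZ p hp) S hS (by
    intro m hm p hp hpH
    have h5 := hrough m hm p hp (hpH.trans hκ)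
    unfold ZG
    rw [mem_insert, mem_singleton]
    rintro (h6 | h6)
    · exact h5.1 (Nat.dvd_of_mod_eq_zero h6)
    · exact h5.2 h6.symm)
  have hlog : Real.log H ^ B ≤ Real.log n ^ B :=
    pow_le_pow_left₀ (Real.log_nonneg hH1) (Real.log_le_log hH0 hHnr) B
  have h5 : ((Iso k (Real.log n ^ B) S).card : ℝ) ≤ ((Iso k (Real.log H ^ B) S).card : ℝ) := by
    exact_mod_cast card_le_card (Iso_anti hlog S)
  refine h5.trans (h4.le.trans ?_)
  have h6 : (n : ℝ) ^ (1 / (r' : ℝ)) ≤ (H : ℝ) ^ (1 / (r : ℝ)) := by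
    calc (n : ℝ) ^ (1 / (r' : ℝ)) ≤ (n : ℝ) ^ (θ * (1 / (r : ℝ))) := by
          apply Real.rpow_le_rpow_of_exponent_le hn1
          rw [mul_one_div, div_le_div_iff₀ hr'0 hr0]
          rw [div_le_iff₀ hθ] at hr'1
          linarith
      _ = ((n : ℝ) ^ θ) ^ (1 / (r : ℝ)) := Real.rpow_mul hn0.le _ _
      _ ≤ (H : ℝ) ^ (1 / (r : ℝ)) := Real.rpow_le_rpow (by positivity) hH (by positivity)
  have h7 : VV (ZG n) 0 ⌊(H : ℝ) ^ (1 / (r : ℝ))⌋₊ ≤ VV (ZG n) 0 ⌊(n : ℝ) ^ (1 / (r' : ℝ))⌋₊ :=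
    VV_anti (Nat.floor_le_floor h6) (fun p hp => (hZ p (Pool.Agent.Y843.HS.Pr_prime hp)).2.2)
  have h8 := hn₁ n hnn₁
  calc ε / C * H * VV (ZG n) 0 ⌊(H : ℝ) ^ (1 / (r : ℝ))⌋₊
      ≤ ε / C * H * (C * (n / (n.totient * Real.log n ^ 2))) :=
        mul_le_mul_of_nonneg_left (h7.trans h8) (by positivity)
    _ = ε * (H * (n / (n.totient * Real.log n ^ 2))) := by
        field_simp

/-- **windows of the representations by primes** -/
theorem gold_primes {k : ℕ} (hk : 1 ≤ k) {θ ε : ℝ} (hθ : 0 < θ) (hε : 0 < ε) :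
    ∃ B n₀ : ℕ, ∀ n : ℕ, n₀ ≤ n → Even n → ∀ y H : ℕ, (n : ℝ) ^ θ ≤ H → y + H ≤ n →
    ∀ S : Finset ℕ, S ⊆ Ioc y (y + H) → (∀ p ∈ S, p.Prime ∧ (n - p).Prime) →
      ((Iso k (Real.log n ^ B) S).card : ℝ) ≤ ε * (H * (n / (n.totient * Real.log n ^ 2))) := by
  classical
  set r := max 1 ⌈2 / θ⌉₊ with hr
  have hr1 : 1 ≤ r := le_max_left _ _
  have hr0 : (0 : ℝ) < r := by exact_mod_cast hr1
  have hr2 : 2 / θ ≤ r := (Nat.le_ceil _).trans (by exact_mod_cast le_max_right _ _)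
  obtain ⟨B, n₁, hn₁⟩ := gold hk r hr1 hθ (show 0 < ε / 2 by positivity)
  -- `2 n ^ (θ / 2) + 1 ≤ (ε / 2) n ^ θ / log ^ 2 n`
  have hlit : ∀ᶠ x : ℝ in atTop, Real.log x ^ 2 * (2 * x ^ (θ / 2) + 2) ≤ ε / 2 * x ^ θ := by
    have h1 := (isLittleO_log_rpow_atTop (show 0 < θ / 8 by positivity)).bound
      (show (0 : ℝ) < 1 by norm_num)
    have h2 := (tendsto_rpow_atTop (show 0 < θ / 4 by positivity)).eventually
      (eventually_ge_atTop (4 / (ε / 2)))
    filter_upwards [h1, h2, eventually_ge_atTop 1] with x hx1 hx2 hx3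
    have hx0 : 0 < x := by linarith
    have hl0 : 0 ≤ Real.log x := Real.log_nonneg hx3
    rw [one_mul, Real.norm_of_nonneg hl0, Real.norm_of_nonneg (by positivity)] at hx1
    have e1 : Real.log x ^ 2 ≤ x ^ (θ / 4) := by
      calc Real.log x ^ 2 ≤ (x ^ (θ / 8)) ^ 2 := pow_le_pow_left₀ hl0 hx1 2
        _ = x ^ (θ / 4) := by
            rw [← Real.rpow_natCast, ← Real.rpow_mul hx0.le]
            congr 1
            push_cast
            ring
    have e2 : 1 ≤ x ^ (θ / 2) := Real.one_le_rpow hx3 (by positivity)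
    rw [div_le_iff₀ (by positivity)] at hx2
    calc Real.log x ^ 2 * (2 * x ^ (θ / 2) + 2) ≤ x ^ (θ / 4) * (4 * x ^ (θ / 2)) := by
          apply mul_le_mul e1 (by linarith) (by positivity) (by positivity)
      _ ≤ x ^ (θ / 4) * ((x ^ (θ / 4) * (ε / 2)) * x ^ (θ / 2)) := by gcongr
      _ = ε / 2 * (x ^ (θ / 4) * x ^ (θ / 4) * x ^ (θ / 2)) := by ring
      _ = ε / 2 * x ^ θ := by
          rw [← Real.rpow_add hx0, ← Real.rpow_add hx0]
          congr 2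
          ring
  have hlit' := (tendsto_natCast_atTop_atTop (R := ℝ)).eventually hlit
  rw [eventually_atTop] at hlit'
  obtain ⟨n₂, hn₂⟩ := hlit'
  refine ⟨B, max (max n₁ n₂) 3, ?_⟩
  intro n hn hne y H hH hHn S hS hSp
  have hnn₁ : n₁ ≤ n := (le_max_left _ _).trans ((le_max_left _ _).trans hn)
  have hnn₂ : n₂ ≤ n := (le_max_right _ _).trans ((le_max_left _ _).trans hn)
  have hn3 : 3 ≤ n := (le_max_right _ _).trans hn
  have hn0 : (0 : ℝ) < n := by exact_mod_cast (show 0 < n by omega)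
  have hn1 : (1 : ℝ) ≤ n := by exact_mod_cast (show 1 ≤ n by omega)
  set w := (n : ℝ) ^ (1 / (r : ℝ)) with hw
  have hw0 : 0 ≤ w := by positivity
  have hwθ : w ≤ (n : ℝ) ^ (θ / 2) := by
    apply Real.rpow_le_rpow_of_exponent_le hn1
    rw [div_le_iff₀ hr0]
    rw [div_le_iff₀ hθ] at hr2
    linarith
  set S₁ := S.filter (fun p : ℕ => w < (p : ℝ) ∧ w < ((n - p : ℕ) : ℝ)) with hS₁
  set S₂ := S.filter (fun p : ℕ => ¬ (w < (p : ℝ) ∧ w < ((n - p : ℕ) : ℝ))) with hS₂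
  have hS₁S : S₁ ⊆ S := filter_subset _ _
  have hle : ∀ p ∈ S, p ≤ n := by
    intro p hp
    have := mem_Ioc.1 (hS hp)
    omega
  have h1 := hn₁ n hnn₁ hne y H hH (by omega) S₁ (hS₁S.trans hS) (by
    intro p hp q hq hqw
    rw [hS₁, mem_filter] at hp
    obtain ⟨hpS, hp1, hp2⟩ := hp
    obtain ⟨hpp, hnp⟩ := hSp p hpS
    constructor
    · intro hqp
      have := (Nat.prime_dvd_prime_iff_eq hq hpp).1 hqp
      rw [this] at hqw
      linarith
    · intro hmod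
      have h2 : q ∣ n - p := (Nat.modEq_iff_dvd' (hle p hpS)).1 hmod.symm
      have := (Nat.prime_dvd_prime_iff_eq hq hnp).1 h2
      rw [this] at hqw
      linarith)
  have h2 : Iso k (Real.log n ^ B) S ⊆ Iso k (Real.log n ^ B) S₁ ∪ S₂ := by
    intro p hp
    unfold Iso at hp
    rw [mem_filter] at hp
    rw [mem_union]
    by_cases h3 : w < (p : ℝ) ∧ w < ((n - p : ℕ) : ℝ)
    · left
      unfold Iso
      rw [mem_filter]
      exact ⟨by rw [hS₁, mem_filter]; exact ⟨hp.1, h3⟩, fun hcon => hp.2 (hcon.mono le_rfl hS₁S)⟩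
    · right
      rw [hS₂, mem_filter]
      exact ⟨hp.1, h3⟩
  have h3 : (S₂.card : ℝ) ≤ 2 * w + 2 := by
    have h4 : S₂ ⊆ Icc 0 ⌊w⌋₊ ∪ (Icc 0 ⌊w⌋₊).image (fun q => n - q) := by
      intro p hp
      rw [hS₂, mem_filter] at hp
      rw [mem_union, mem_Icc, mem_image]
      obtain ⟨hpS, hp1⟩ := hp
      rw [not_and_or, not_lt, not_lt] at hp1
      rcases hp1 with h5 | h5
      · left
        exact ⟨Nat.zero_le _, Nat.le_floor h5⟩
      · right
        refine ⟨n - p, ?_, ?_⟩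
        · rw [mem_Icc]
          exact ⟨Nat.zero_le _, Nat.le_floor h5⟩
        · have := hle p hpS
          omega
    have h5 : S₂.card ≤ 2 * (⌊w⌋₊ + 1) := by
      refine (card_le_card h4).trans ((card_union_le _ _).trans ?_)
      have h6 := card_image_le (s := Icc 0 ⌊w⌋₊) (f := fun q => n - q)
      rw [Nat.card_Icc] at h6 ⊢
      omega
    have h6 : (S₂.card : ℝ) ≤ 2 * ((⌊w⌋₊ : ℝ) + 1) := by exact_mod_cast h5
    have := Nat.floor_le hw0
    linarith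
  have hlog0 : 0 < Real.log n := Real.log_pos (by exact_mod_cast (show 1 < n by omega))
  have hφ0 : (0 : ℝ) < n.totient := by exact_mod_cast Nat.totient_pos.2 (show 0 < n by omega)
  have h4 : 2 * w + 2 ≤ ε / 2 * (H * (n / (n.totient * Real.log n ^ 2))) := by
    have h5 := hn₂ n hnn₂
    have h6 : (1 : ℝ) / Real.log n ^ 2 ≤ n / (n.totient * Real.log n ^ 2) := by
      rw [div_le_div_iff₀ (by positivity) (by positivity)]
      have : (n.totient : ℝ) ≤ n := by exact_mod_cast Nat.totient_le n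
      have h7 := mul_le_mul_of_nonneg_right this (show 0 ≤ Real.log n ^ 2 by positivity)
      linarith
    have h7 : 2 * w + 2 ≤ ε / 2 * ((n : ℝ) ^ θ * (1 / Real.log n ^ 2)) := by
      rw [← mul_assoc, mul_one_div, le_div_iff₀ (by positivity)]
      have h8 : (2 * w + 2) * Real.log n ^ 2 ≤ Real.log n ^ 2 * (2 * (n : ℝ) ^ (θ / 2) + 2) := by
        rw [mul_comm]
        apply mul_le_mul_of_nonneg_left (by linarith) (by positivity)
      exact h8.trans h5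
    refine h7.trans ?_
    apply mul_le_mul_of_nonneg_left _ (by positivity)
    exact mul_le_mul hH h6 (by positivity) (Nat.cast_nonneg _)
  have h5 : ((Iso k (Real.log n ^ B) S).card : ℝ) ≤
      ((Iso k (Real.log n ^ B) S₁).card : ℝ) + S₂.card := by
    have := (card_le_card h2).trans (card_union_le _ _)
    exact_mod_cast this
  linarith

end Pool.Agent.Y843.HG
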