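import Pool.Agent.Y843.HG.Psb
import Pool.Agent.Y843.HG.Gold
import Pool.Agent.TH423.SH.FLLP

/-!
# Primes sifted by arbitrary nonzero classes
-/

set_option autoImplicit false

namespace Pool.Agent.Y843.HG

open Finset Filter
open Pool.Agent.Y843.HS (Pr VV Pr_mem Pr_prime VV_split EE one_le_EE EE_log VV_ge card_res)
open Pool.Agent.TH423.SH (PS FLL)

/-- admissible sets of at most `r` nonzero classes for the primes up to `Y` -/
def Adm (r Y : ℕ) (Om : ℕ → Finset ℕ) : Prop :=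
  ∀ p ∈ Pr 0 Y, (Om p).card ≤ r ∧ (Om p).card + 1 < p ∧ 0 ∉ Om p ∧ ∀ c ∈ Om p, c < p

/-- with the class `0` -/
def Z0 (Om : ℕ → Finset ℕ) (p : ℕ) : Finset ℕ := insert 0 (Om p)

open Classical in
/-- the primes `q ≤ X` outside of the classes modulo the primes `p ≤ Y`, `q > Y` -/
noncomputable def SP (Om : ℕ → Finset ℕ) (X Y : ℕ) : Finset ℕ :=
  (Ioc 0 X).filter (fun q => q.Prime ∧ ∀ p ∈ Pr 0 Y, q % p ∉ Z0 Om p)

theorem Adm.card {r Y : ℕ} {Om : ℕ → Finset ℕ} (h : Adm r Y Om) {p : ℕ} (hp : p ∈ Pr 0 Y) :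
    (Z0 Om p).card = (Om p).card + 1 := card_insert_of_notMem (h p hp).2.2.1

theorem Adm.lt {r Y : ℕ} {Om : ℕ → Finset ℕ} (h : Adm r Y Om) {p : ℕ} (hp : p ∈ Pr 0 Y) :
    ∀ c ∈ Z0 Om p, c < p := by
  intro c hc
  unfold Z0 at hc
  rw [mem_insert] at hc
  rcases hc with rfl | hc
  · exact (Pr_prime hp).pos
  · exact (h p hp).2.2.2 c hc

/-- a polynomial lower bound for the sieve product -/
theorem VV_low (r : ℕ) : ∃ c : ℝ, 0 < c ∧ ∀ Y : ℕ, 2 * r + 3 ≤ Y → ∀ Z : ℕ → Finset ℕ,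
    (∀ p ∈ Pr 0 Y, (Z p).card ≤ r ∧ (Z p).card < p ∧ ∀ c ∈ Z p, c < p) →
    c / Real.log Y ^ (2 * r) ≤ VV Z 0 Y := by
  obtain ⟨cM, hcM1, hcM⟩ := EE_log
  set s := 2 * r + 3 with hs
  have hfac : (0 : ℝ) < ∏ p ∈ Pr 0 s, (1 / (p : ℝ)) := prod_pos fun p hp => by
    have : (0 : ℝ) < p := by exact_mod_cast (Pr_prime hp).pos
    positivity
  refine ⟨(∏ p ∈ Pr 0 s, (1 / (p : ℝ))) / cM ^ (2 * r), by positivity, ?_⟩
  intro Y hY Z hZ
  have hlY : 0 < Real.log Y := Real.log_pos (by exact_mod_cast (show 1 < Y by omega))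
  rw [← VV_split Z (Nat.zero_le s) hY]
  have h1 : ∏ p ∈ Pr 0 s, (1 / (p : ℝ)) ≤ VV Z 0 s := by
    unfold VV
    apply Finset.prod_le_prod
    · intro p hp
      positivity
    · intro p hp
      have hp' : p ∈ Pr 0 Y := by
        rw [Pr_mem] at hp ⊢
        exact ⟨⟨hp.1.1, by omega⟩, hp.2⟩
      have hp0 : (0 : ℝ) < p := by exact_mod_cast (Pr_prime hp).pos
      have h2 : ((Z p).card : ℝ) + 1 ≤ p := by exact_mod_cast (hZ p hp').2.1
      rw [div_le_iff₀ hp0, sub_mul, div_mul_cancel₀ _ hp0.ne']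
      linarith
  have h2 : 1 / EE s Y ^ (2 * r) ≤ VV Z s Y := VV_ge (by omega) (by
    intro p hp
    have hp' : p ∈ Pr 0 Y := by
      rw [Pr_mem] at hp ⊢
      exact ⟨⟨by omega, hp.1.2⟩, hp.2⟩
    exact ⟨(hZ p hp').1, (hZ p hp').2.2⟩)
  have h3 : 1 / (cM * Real.log Y) ^ (2 * r) ≤ VV Z s Y := by
    refine le_trans ?_ h2
    have h4 := one_le_EE s Y
    apply one_div_le_one_div_of_le (by positivity)
    exact pow_le_pow_left₀ (by positivity) (hcM s Y (by omega) hY) _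
  calc (∏ p ∈ Pr 0 s, (1 / (p : ℝ))) / cM ^ (2 * r) / Real.log Y ^ (2 * r)
      = (∏ p ∈ Pr 0 s, (1 / (p : ℝ))) * (1 / (cM * Real.log Y) ^ (2 * r)) := by
        rw [mul_pow]
        field_simp
    _ ≤ VV Z 0 s * VV Z s Y := mul_le_mul h1 h3 (by positivity) (hfac.le.trans h1)

/-- the number of the primes -/
theorem pi_low : ∃ n₀ : ℕ, ∀ n : ℕ, n₀ ≤ n → (n : ℝ) / (2 * Real.log n) ≤
    (((Ioc 0 n).filter Nat.Prime).card : ℝ) := by
  obtain ⟨n₁, h1⟩ := Pool.Agent.Y843.HS.log_pow_le 1 40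
  refine ⟨max n₁ 4, ?_⟩
  intro n hn
  have hn4 : 4 ≤ n := (le_max_right _ _).trans hn
  have h2 := h1 n ((le_max_left _ _).trans hn)
  have h3 := Chebyshev.pi_ge n
  have hl : 0 < Real.log n := Real.log_pos (by exact_mod_cast (show 1 < n by omega))
  have h4 : Nat.primeCounting n = ((Ioc 0 n).filter Nat.Prime).card := by
    rw [Nat.primeCounting, Nat.primeCounting', Nat.count_eq_card_filter_range]
    congr 1
    ext p
    rw [mem_filter, mem_filter, mem_range, mem_Ioc]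
    constructor
    · rintro ⟨h5, h6⟩
      exact ⟨⟨h6.pos, by omega⟩, h6⟩
    · rintro ⟨⟨_, h5⟩, h6⟩
      exact ⟨by omega, h6⟩
  rw [h4] at h3
  refine le_trans ?_ h3
  rw [div_le_div_iff₀ (by positivity) hl]
  have h5 : Real.log ((n : ℝ) + 1) ≤ 2 * Real.log n := by
    have h6 : (n : ℝ) + 1 ≤ (n : ℝ) ^ 2 := by
      have : (4 : ℝ) ≤ n := by exact_mod_cast hn4
      nlinarith
    have h7 := Real.log_le_log (by positivity) h6
    rwa [Real.log_pow] at h7
  have h6 := Real.log_two_gt_d9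
  rw [pow_one] at h2
  have h7 : (n : ℝ) ≤ ((n : ℝ) * Real.log 2 - Real.log ((n : ℝ) + 1)) * 2 := by
    have : 40 * Real.log n ≤ n := h2
    have h8 : (0.69 : ℝ) * n ≤ n * Real.log 2 := by
      have : (0 : ℝ) ≤ n := Nat.cast_nonneg n
      nlinarith
    nlinarith
  calc (n : ℝ) * Real.log n ≤ (((n : ℝ) * Real.log 2 - Real.log ((n : ℝ) + 1)) * 2) * Real.log n :=
        mul_le_mul_of_nonneg_right h7 hl.le
    _ = _ := by ring

/-- **the number of the sifted primes** -/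
theorem SP_count (r : ℕ) : ∃ t : ℕ, 1 ≤ t ∧ ∃ c : ℝ, 0 < c ∧ ∃ X₀ : ℕ, ∀ X : ℕ, X₀ ≤ X →
    ∀ Om : ℕ → Finset ℕ, Adm r ⌊(X : ℝ) ^ (1 / (t : ℝ))⌋₊ Om →
      c * X * VV (Z0 Om) 0 ⌊(X : ℝ) ^ (1 / (t : ℝ))⌋₊ ≤
        ((SP Om X ⌊(X : ℝ) ^ (1 / (t : ℝ))⌋₊).card : ℝ) := by
  classical
  obtain ⟨C, hC1, hC⟩ := psb Pool.Agent.TH423.SH.fll
  set s := C * (r + 1) with hs
  have hs1 : 1 ≤ s := Nat.mul_pos hC1 (by omega)
  set m₀ := ∏ p ∈ Pr 0 s, p with hm₀
  have hm₀1 : 1 ≤ m₀ := Nat.one_le_iff_ne_zero.2 (prod_ne_zero_iff.2 fun p hp => (Pr_prime hp).ne_zero)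
  have hm₀d : ∀ p : ℕ, p.Prime → (p ≤ s ↔ p ∣ m₀) := by
    intro p hp
    constructor
    · intro h
      exact dvd_prod_of_mem _ (Pr_mem.2 ⟨⟨hp.pos, h⟩, hp⟩)
    · intro h
      rw [hm₀, hp.prime.dvd_finsetProd_iff] at h
      obtain ⟨q, hq, hpq⟩ := h
      rw [(Nat.prime_dvd_prime_iff_eq hp (Pr_prime hq)).1 hpq]
      exact (Pr_mem.1 hq).1.2
  set Bb := 2 * (r + 1) + 1 with hBb
  obtain ⟨X₁, hX₁⟩ := hC r s m₀ Bb le_rfl hm₀1 (fun p hp h => (hm₀d p hp).1 h)
  set t := 6 * (C * s) with ht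
  have hCs : 1 ≤ C * s := Nat.mul_pos hC1 hs1
  have ht1 : 1 ≤ t := by omega
  have ht0 : (0 : ℝ) < t := by exact_mod_cast ht1
  obtain ⟨cV, hcV, hV⟩ := VV_low (r + 1)
  obtain ⟨c1, C1', hc1, hC1', hM⟩ := V1_bounds
  obtain ⟨X₂, hX₂⟩ := pi_low
  obtain ⟨X₃, hX₃⟩ := log_floor t ht1
  have hφ0 : (0 : ℝ) < m₀.totient := by exact_mod_cast Nat.totient_pos.2 hm₀1
  -- the constant
  set c0 : ℝ := 1 / 2 * (1 / (2 * m₀.totient)) * (1 / (2 * t)) * (1 / (C1' * 2 ^ s)) with hc0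
  have hc0' : 0 < c0 := by positivity
  -- largeness
  have hlarge : ∃ X₄ : ℕ, ∀ X : ℕ, X₄ ≤ X → (2 * (r + 1) + 3 + s + 1 : ℝ) ≤ (X : ℝ) ^ (1 / (t : ℝ)) ∧
      (X : ℝ) / Real.log X ^ Bb + (X : ℝ) ^ (1 / (t : ℝ)) + 1 ≤
        c0 / 2 * X * (cV / Real.log X ^ (2 * (r + 1))) := by
    have e1 : ∀ᶠ x : ℝ in atTop, (2 * (r + 1) + 3 + s + 1 : ℝ) ≤ x ^ (1 / (t : ℝ)) :=
      (tendsto_rpow_atTop (by positivity)).eventually (eventually_ge_atTop _)
    have e2 : ∀ᶠ x : ℝ in atTop, 4 / (c0 * cV) ≤ Real.log x :=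
      Real.tendsto_log_atTop.eventually (eventually_ge_atTop _)
    have e3 : ∀ᶠ x : ℝ in atTop, ‖Real.log x‖ ≤ 1 * ‖x ^ (1 / (4 * (2 * (r + 1) + 1)) : ℝ)‖ :=
      (isLittleO_log_rpow_atTop (by positivity)).bound one_pos
    have e4 : ∀ᶠ x : ℝ in atTop, 8 / (c0 * cV) ≤ x ^ (1 / 12 : ℝ) :=
      (tendsto_rpow_atTop (by norm_num)).eventually (eventually_ge_atTop _)
    have e5 : ∀ᶠ x : ℝ in atTop, (x : ℝ) / Real.log x ^ Bb + (x : ℝ) ^ (1 / (t : ℝ)) + 1 ≤
        c0 / 2 * x * (cV / Real.log x ^ (2 * (r + 1))) := by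
      filter_upwards [e2, e3, e4, eventually_ge_atTop (1 : ℝ),
        Real.tendsto_log_atTop.eventually (eventually_ge_atTop (1 : ℝ))] with x h2 h3 h4 h5 h6
      have hx0 : 0 < x := by linarith
      have hl0 : 0 < Real.log x := by linarith
      have hc : 0 < c0 * cV := by positivity
      have a1 : x / Real.log x ^ Bb ≤ c0 / 4 * x * (cV / Real.log x ^ (2 * (r + 1))) := by
        rw [hBb, pow_succ, div_le_iff₀ (by positivity)]
        rw [div_le_iff₀ hc] at h2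
        have a2 : c0 / 4 * x * (cV / Real.log x ^ (2 * (r + 1))) *
            (Real.log x ^ (2 * (r + 1)) * Real.log x) = x * (Real.log x * (c0 * cV)) / 4 := by
          field_simp
        rw [a2]
        nlinarith
      have a2 : Real.log x ^ (2 * (r + 1)) ≤ x ^ (1 / 4 : ℝ) := by
        rw [one_mul, Real.norm_of_nonneg hl0.le, Real.norm_of_nonneg (by positivity)] at h3
        calc Real.log x ^ (2 * (r + 1)) ≤ (x ^ (1 / (4 * (2 * (r + 1) + 1)) : ℝ)) ^ (2 * (r + 1)) :=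
              pow_le_pow_left₀ hl0.le h3 _
          _ = x ^ ((1 / (4 * (2 * (r + 1) + 1)) : ℝ) * (2 * (r + 1) : ℕ)) := by
              rw [← Real.rpow_natCast, ← Real.rpow_mul hx0.le]
          _ ≤ x ^ (1 / 4 : ℝ) := by
              apply Real.rpow_le_rpow_of_exponent_le h5
              push_cast
              rw [div_mul_eq_mul_div, one_mul, div_le_div_iff₀ (by positivity) (by norm_num)]
              nlinarith
      have a3 : x ^ (1 / (t : ℝ)) ≤ x ^ (1 / 6 : ℝ) := by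
        apply Real.rpow_le_rpow_of_exponent_le h5
        apply one_div_le_one_div_of_le (by norm_num)
        have : 6 ≤ t := by omega
        exact_mod_cast this
      have a4 : (1 : ℝ) ≤ x ^ (1 / 6 : ℝ) := Real.one_le_rpow h5 (by norm_num)
      have a5 : x ^ (1 / (t : ℝ)) + 1 ≤ c0 / 4 * x * (cV / Real.log x ^ (2 * (r + 1))) := by
        have a6 : c0 / 4 * x * (cV / x ^ (1 / 4 : ℝ)) ≤
            c0 / 4 * x * (cV / Real.log x ^ (2 * (r + 1))) := by
          apply mul_le_mul_of_nonneg_left _ (by positivity)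
          exact div_le_div_of_nonneg_left hcV.le (by positivity) a2
        refine le_trans ?_ a6
        have a7 : c0 / 4 * x * (cV / x ^ (1 / 4 : ℝ)) = c0 * cV / 4 * (x ^ (3 / 4 : ℝ)) := by
          have : x = x ^ (3 / 4 : ℝ) * x ^ (1 / 4 : ℝ) := by
            rw [← Real.rpow_add hx0]; norm_num
          rw [mul_div_assoc']
          rw [div_eq_iff (by positivity)]
          calc c0 / 4 * x * cV = c0 * cV / 4 * x := by ring
            _ = c0 * cV / 4 * (x ^ (3 / 4 : ℝ) * x ^ (1 / 4 : ℝ)) := by rw [← this]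
            _ = _ := by ring
        rw [a7]
        rw [div_le_iff₀ hc] at h4
        have a8 : x ^ (1 / 6 : ℝ) * x ^ (1 / 12 : ℝ) ≤ x ^ (3 / 4 : ℝ) := by
          rw [← Real.rpow_add hx0]
          exact Real.rpow_le_rpow_of_exponent_le h5 (by norm_num)
        calc x ^ (1 / (t : ℝ)) + 1 ≤ 2 * x ^ (1 / 6 : ℝ) := by linarith
          _ = 8 * x ^ (1 / 6 : ℝ) / 4 := by ring
          _ ≤ (x ^ (1 / 12 : ℝ) * (c0 * cV)) * x ^ (1 / 6 : ℝ) / 4 := by gcongr
          _ = c0 * cV / 4 * (x ^ (1 / 6 : ℝ) * x ^ (1 / 12 : ℝ)) := by ring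
          _ ≤ c0 * cV / 4 * (x ^ (3 / 4 : ℝ)) := mul_le_mul_of_nonneg_left a8 (by positivity)
      linarith
    have e6 := (tendsto_natCast_atTop_atTop (R := ℝ)).eventually (e1.and e5)
    rw [eventually_atTop] at e6
    exact e6
  obtain ⟨X₄, hX₄⟩ := hlarge
  refine ⟨t, ht1, c0 / 2, by positivity, max (max X₁ X₂) (max X₃ (max X₄ (2 ^ (3 * (C * s))))), ?_⟩
  intro X hX Om hOm
  have hXX₁ : X₁ ≤ X := (le_max_left _ _).trans ((le_max_left _ _).trans hX)
  have hXX₂ : X₂ ≤ X := (le_max_right _ _).trans ((le_max_left _ _).trans hX)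
  have hX' := (le_max_right _ _).trans hX
  have hXX₃ : X₃ ≤ X := (le_max_left _ _).trans hX'
  have hXX₄ : X₄ ≤ X := (le_max_left _ _).trans ((le_max_right _ _).trans hX')
  have hXX₅ : 2 ^ (3 * (C * s)) ≤ X := (le_max_right _ _).trans ((le_max_right _ _).trans hX')
  obtain ⟨hL1, hL2⟩ := hX₄ X hXX₄
  obtain ⟨hY2, hlogY⟩ := hX₃ X hXX₃
  have hX1 : 1 ≤ X := (Nat.one_le_pow _ _ (by norm_num)).trans hXX₅
  have hXr : (1 : ℝ) ≤ X := by exact_mod_cast hX1
  have hX0 : (0 : ℝ) < X := by linarith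
  set w := (X : ℝ) ^ (1 / (t : ℝ)) with hw
  set Y := ⌊w⌋₊ with hY
  have hw0 : 0 ≤ w := by positivity
  have hYw : (Y : ℝ) ≤ w := Nat.floor_le hw0
  have hwY : w < Y + 1 := Nat.lt_floor_add_one w
  have hsY : 2 * (r + 1) + 3 + s ≤ Y := by
    rw [hY]
    apply Nat.le_floor
    push_cast
    linarith
  have hYX : Y ≤ X := by
    have h1 : w ≤ X := by
      calc w ≤ (X : ℝ) ^ (1 : ℝ) := by
            apply Real.rpow_le_rpow_of_exponent_le hXr
            rw [div_le_one ht0]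
            exact_mod_cast ht1
        _ = X := Real.rpow_one _
    have h2 : (Y : ℝ) ≤ X := hYw.trans h1
    exact_mod_cast h2
  have hX2 : 2 ≤ X := hY2.trans hYX
  have hlX : 0 < Real.log X := Real.log_pos (by exact_mod_cast (show 1 < X by omega))
  -- the level
  obtain ⟨J, _, hJ1, hJ2⟩ := Pool.Agent.Y843.HS.exists_cross
    (P := fun J => ((2 ^ 2 ^ J) ^ (C * s)) ^ 3 ≤ X) (a := 0) (b := X) (Nat.zero_le _)
    (by
      refine le_trans (le_of_eq ?_) hXX₅
      rw [pow_zero, pow_one, ← pow_mul, mul_comm]) (by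
      rw [not_le]
      calc X < 2 ^ X := Nat.lt_two_pow_self
        _ ≤ 2 ^ 2 ^ X := Nat.pow_le_pow_right (by norm_num) Nat.lt_two_pow_self.le
        _ = (2 ^ 2 ^ X) ^ 1 := (pow_one _).symm
        _ ≤ (2 ^ 2 ^ X) ^ (C * s * 3) := Nat.pow_le_pow_right (by positivity) (by omega)
        _ = ((2 ^ 2 ^ X) ^ (C * s)) ^ 3 := by rw [pow_mul])
  rw [not_le] at hJ2
  set R := 2 ^ 2 ^ J with hR
  have hR0 : (0 : ℝ) < R := by exact_mod_cast (show 0 < R by rw [hR]; positivity)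
  have hYR : Y ≤ R := by
    have h1 : (X : ℝ) < (R : ℝ) ^ t := by
      have h2 : 2 ^ 2 ^ (J + 1) = R ^ 2 := by rw [hR, ← pow_mul, pow_succ]
      rw [h2, ← pow_mul, ← pow_mul] at hJ2
      have h3 : 2 * (C * s * 3) = t := by rw [ht]; ring
      rw [h3] at hJ2
      exact_mod_cast hJ2
    have h2 : w < R := by
      calc w < ((R : ℝ) ^ t) ^ (1 / (t : ℝ)) := Real.rpow_lt_rpow hX0.le h1 (by positivity)
        _ = R := by
            rw [← Real.rpow_natCast, ← Real.rpow_mul hR0.le, mul_one_div_cancel ht0.ne', Real.rpow_one]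
    have h3 : (Y : ℝ) ≤ R := by linarith
    exact_mod_cast h3
  -- the class modulo `m₀`
  have hsub : ∀ p ∈ Pr 0 s, p ∈ Pr 0 Y := by
    intro p hp
    rw [Pr_mem] at hp ⊢
    exact ⟨⟨hp.1.1, by omega⟩, hp.2⟩
  obtain ⟨a, ha⟩ : ∃ a : ℕ, ∀ p ∈ Pr 0 s, a % p ∉ Z0 Om p := by
    have h1 := card_res (Pr 0 s) (fun p hp => Pr_prime hp) (fun p => (range p).filter (fun c => c ∉ Z0 Om p))
      (fun p _ c hc => mem_range.1 (mem_filter.1 hc).1)
    have h2 : 0 < ∏ p ∈ Pr 0 s, ((range p).filter (fun c => c ∉ Z0 Om p)).card := by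
      apply prod_pos
      intro p hp
      rw [card_pos]
      by_contra hcon
      rw [not_nonempty_iff_eq_empty, filter_eq_empty_iff] at hcon
      have h3 : range p ⊆ Z0 Om p := fun c hc => not_not.1 (hcon hc)
      have h4 := card_le_card h3
      rw [card_range, hOm.card (hsub p hp)] at h4
      have := (hOm p (hsub p hp)).2.1
      omega
    rw [← h1, card_pos] at h2
    obtain ⟨a, ha⟩ := h2
    rw [mem_filter] at ha
    exact ⟨a, fun p hp => (mem_filter.1 (ha.2 p hp)).2⟩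
  have hacop : a.Coprime m₀ := by
    rw [hm₀]
    apply Nat.Coprime.prod_right
    intro p hp
    rw [Nat.coprime_comm, Nat.Prime.coprime_iff_not_dvd (Pr_prime hp)]
    intro hpa
    apply ha p hp
    rw [Nat.mod_eq_zero_of_dvd hpa]
    exact mem_insert_self _ _
  set Om' : ℕ → Finset ℕ := fun p => if p ≤ Y then Om p else ∅ with hOm'
  have hPS : ∀ p, p ∈ PS m₀ R ↔ p ∈ Pr s R := by
    intro p
    unfold PS
    rw [mem_filter, mem_Icc, Pr_mem]
    constructor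
    · rintro ⟨⟨h1, h2⟩, h3, h4⟩
      refine ⟨⟨?_, h2⟩, h3⟩
      by_contra hcon
      exact h4 ((hm₀d p h3).1 (by omega))
    · rintro ⟨⟨h1, h2⟩, h3⟩
      refine ⟨⟨h3.one_lt.le, h2⟩, h3, ?_⟩
      intro h4
      have := (hm₀d p h3).2 h4
      omega
  have hOmY : ∀ p ∈ Pr s R, p ≤ Y → p ∈ Pr 0 Y := by
    intro p hp hpY
    rw [Pr_mem] at hp ⊢
    exact ⟨⟨by omega, hpY⟩, hp.2⟩
  have hOm'' : ∀ p ∈ PS m₀ R, (Om' p).card ≤ r ∧ 0 ∉ Om' p ∧ ∀ c ∈ Om' p, c < p := by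
    intro p hp
    rw [hPS] at hp
    rw [hOm']
    by_cases h : p ≤ Y
    · simp only [if_pos h]
      obtain ⟨h1, _, h3, h4⟩ := hOm p (hOmY p hp h)
      exact ⟨h1, h3, h4⟩
    · simp [if_neg h]
  have hmain := hX₁ 0 X J a hXX₁ (Nat.zero_le _) hJ1 hacop Om' hOm''
  -- the product
  set Pp := ∏ p ∈ PS m₀ R, (1 - ((Om' p).card : ℝ) / ((p : ℝ) - 1)) with hPp
  have hPSeq : PS m₀ R = Pr s R := by ext p; exact hPS p
  have hPp1 : VV (Z0 Om) 0 Y * (Real.log Y / (C1' * 2 ^ s)) ≤ Pp := by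
    have e1 : Pp = ∏ p ∈ Pr s Y, (1 - ((Om p).card : ℝ) / ((p : ℝ) - 1)) := by
      rw [hPp, hPSeq]
      have e2 : Pr s Y ⊆ Pr s R := by
        intro p hp
        rw [Pr_mem] at hp ⊢
        exact ⟨⟨hp.1.1, by omega⟩, hp.2⟩
      rw [← prod_subset e2]
      · apply prod_congr rfl
        intro p hp
        rw [hOm']
        simp only [if_pos (Pr_mem.1 hp).1.2]
      · intro p hp hp'
        rw [hOm']
        have : ¬ p ≤ Y := by
          intro h
          apply hp'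
          rw [Pr_mem] at hp ⊢
          exact ⟨⟨hp.1.1, h⟩, hp.2⟩
        simp [if_neg this]
    have e2 : (∏ p ∈ Pr s Y, (1 - ((Om p).card : ℝ) / ((p : ℝ) - 1))) *
        ∏ p ∈ Pr s Y, (1 - 1 / (p : ℝ)) = VV (Z0 Om) s Y := by
      unfold VV
      rw [← prod_mul_distrib]
      apply prod_congr rfl
      intro p hp
      have hp' : p ∈ Pr 0 Y := by
        rw [Pr_mem] at hp ⊢
        exact ⟨⟨by omega, hp.1.2⟩, hp.2⟩
      rw [hOm.card hp']
      have hp2 : (2 : ℝ) ≤ p := by exact_mod_cast (Pr_prime hp).two_le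
      have h1 : (p : ℝ) - 1 ≠ 0 := by linarith
      have h2 : (p : ℝ) ≠ 0 := by linarith
      push_cast
      field_simp
      ring
    have e3 : V1 Y = (∏ p ∈ Pr 0 s, (1 - 1 / (p : ℝ))) * ∏ p ∈ Pr s Y, (1 - 1 / (p : ℝ)) := by
      have h1 := VV_split (fun _ => ({0} : Finset ℕ)) (Nat.zero_le s) (show s ≤ Y by omega)
      unfold VV at h1
      simp only [card_singleton, Nat.cast_one] at h1
      exact h1.symm
    have e4 : (1 : ℝ) / 2 ^ s ≤ ∏ p ∈ Pr 0 s, (1 - 1 / (p : ℝ)) := by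
      calc (1 : ℝ) / 2 ^ s = (1 / 2) ^ s := by rw [one_div_pow]
        _ ≤ (1 / 2) ^ (Pr 0 s).card := by
            apply pow_le_pow_of_le_one (by norm_num) (by norm_num)
            have : (Pr 0 s).card ≤ (Ioc 0 s).card := card_filter_le _ _
            rwa [Nat.card_Ioc, Nat.sub_zero] at this
        _ = ∏ _p ∈ Pr 0 s, (1 / 2 : ℝ) := by rw [prod_const]
        _ ≤ _ := Finset.prod_le_prod (fun _ _ => by norm_num) (fun p hp => (fac1 (Pr_prime hp)).1)
    have hVsY0 : 0 < ∏ p ∈ Pr s Y, (1 - 1 / (p : ℝ)) := prod_pos fun p hp => by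
      have := (fac1 (Pr_prime hp)).1
      linarith
    have e5 : ∏ p ∈ Pr s Y, (1 - 1 / (p : ℝ)) ≤ C1' * 2 ^ s / Real.log Y := by
      have h1 := (hM Y hY2).2
      rw [e3] at h1
      have h2 : 1 / 2 ^ s * ∏ p ∈ Pr s Y, (1 - 1 / (p : ℝ)) ≤ C1' / Real.log Y :=
        (mul_le_mul_of_nonneg_right e4 hVsY0.le).trans h1
      rw [one_div_mul_eq_div, div_le_iff₀ (by positivity)] at h2
      refine h2.trans (le_of_eq ?_)
      ring
    have hlY0 : 0 < Real.log Y := Real.log_pos (by exact_mod_cast (show 1 < Y by omega))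
    have hZ0 : ∀ p ∈ Pr 0 Y, 0 ≤ 1 - ((Z0 Om p).card : ℝ) / p ∧ 1 - ((Z0 Om p).card : ℝ) / p ≤ 1 := by
      intro p hp
      refine ⟨Pool.Agent.Y843.HS.one_sub_nonneg (hOm.lt hp), ?_⟩
      have : (0 : ℝ) ≤ ((Z0 Om p).card : ℝ) / p := by positivity
      linarith
    have e6 : VV (Z0 Om) 0 Y ≤ VV (Z0 Om) s Y := by
      rw [← VV_split (Z0 Om) (Nat.zero_le s) (show s ≤ Y by omega)]
      apply mul_le_of_le_one_left
      · unfold VV
        apply prod_nonneg
        intro p hp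
        exact (hZ0 p (by
          rw [Pr_mem] at hp ⊢
          exact ⟨⟨by omega, hp.1.2⟩, hp.2⟩)).1
      · unfold VV
        exact Finset.prod_le_one (fun p hp => (hZ0 p (hsub p hp)).1) (fun p hp => (hZ0 p (hsub p hp)).2)
    have e7 : 0 ≤ VV (Z0 Om) 0 Y := by
      unfold VV
      exact prod_nonneg fun p hp => (hZ0 p hp).1
    rw [e1]
    have e8 : VV (Z0 Om) 0 Y ≤ (∏ p ∈ Pr s Y, (1 - ((Om p).card : ℝ) / ((p : ℝ) - 1))) *
        (C1' * 2 ^ s / Real.log Y) := by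
      refine e6.trans ?_
      rw [← e2]
      apply mul_le_mul_of_nonneg_left e5
      have h1 : 0 ≤ (∏ p ∈ Pr s Y, (1 - ((Om p).card : ℝ) / ((p : ℝ) - 1))) *
        ∏ p ∈ Pr s Y, (1 - 1 / (p : ℝ)) := by rw [e2]; exact e7.trans e6
      exact nonneg_of_mul_nonneg_left h1 hVsY0
    have h1 := mul_le_mul_of_nonneg_right e8 (show 0 ≤ Real.log Y / (C1' * 2 ^ s) by positivity)
    refine h1.trans (le_of_eq ?_)
    field_simp
  have hVV0 : 0 ≤ VV (Z0 Om) 0 Y := by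
    unfold VV
    exact prod_nonneg fun p hp => Pool.Agent.Y843.HS.one_sub_nonneg (hOm.lt hp)
  have hVVlow := hV Y (by omega) (Z0 Om) (fun p hp => by
    refine ⟨by rw [hOm.card hp]; exact Nat.add_le_add_right (hOm p hp).1 1, by
      rw [hOm.card hp]; exact (hOm p hp).2.1, hOm.lt hp⟩)
  have hpi := hX₂ X hXX₂
  -- the main term
  have hmt : c0 * X * VV (Z0 Om) 0 Y * 2 ≤ (((Ioc 0 X).filter Nat.Prime).card : ℝ) / m₀.totient * Pp := by
    have h1 : VV (Z0 Om) 0 Y * (Real.log X / (2 * t) / (C1' * 2 ^ s)) ≤ Pp := by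
      refine le_trans ?_ hPp1
      apply mul_le_mul_of_nonneg_left _ hVV0
      exact div_le_div_of_nonneg_right hlogY (by positivity)
    have h2 : (X : ℝ) / (2 * Real.log X) / m₀.totient ≤
        (((Ioc 0 X).filter Nat.Prime).card : ℝ) / m₀.totient := div_le_div_of_nonneg_right hpi hφ0.le
    have h3 : (X : ℝ) / (2 * Real.log X) / m₀.totient *
        (VV (Z0 Om) 0 Y * (Real.log X / (2 * t) / (C1' * 2 ^ s))) ≤
        (((Ioc 0 X).filter Nat.Prime).card : ℝ) / m₀.totient * Pp :=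
      mul_le_mul h2 h1 (by positivity) (by positivity)
    refine le_trans (le_of_eq ?_) h3
    rw [hc0]
    field_simp
  -- the set
  set F := (Ioc 0 X).filter (fun q => q.Prime ∧ q % m₀ = a % m₀ ∧ ∀ p ∈ PS m₀ R, q % p ∉ Om' p) with hF
  have hFS : F ⊆ SP Om X Y ∪ Icc 0 Y := by
    intro q hq
    rw [hF, mem_filter] at hq
    obtain ⟨h1, h2, h3, h4⟩ := hq
    rw [mem_union, mem_Icc]
    rcases le_or_gt q Y with h5 | h5
    · right
      exact ⟨Nat.zero_le _, h5⟩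
    · left
      unfold SP
      rw [mem_filter]
      refine ⟨h1, h2, ?_⟩
      intro p hp hcon
      unfold Z0 at hcon
      rw [mem_insert] at hcon
      have hpp := Pr_prime hp
      rcases hcon with h6 | h6
      · have h7 := (Nat.prime_dvd_prime_iff_eq hpp h2).1 (Nat.dvd_of_mod_eq_zero h6)
        have := (Pr_mem.1 hp).1.2
        omega
      · rcases le_or_gt p s with h7 | h7
        · have h8 : p ∈ Pr 0 s := Pr_mem.2 ⟨⟨hpp.pos, h7⟩, hpp⟩
          apply ha p h8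
          have h9 : p ∣ m₀ := (hm₀d p hpp).1 h7
          have h10 : q % p = a % p := by
            have := congrArg (fun x => x % p) h3
            simp only [Nat.mod_mod_of_dvd _ h9] at this
            exact this
          rw [← h10]
          exact mem_insert_of_mem h6
        · have h8 : p ∈ PS m₀ R := by
            rw [hPS, Pr_mem]
            exact ⟨⟨h7, by have := (Pr_mem.1 hp).1.2; omega⟩, hpp⟩
          apply h4 p h8
          rw [hOm']
          simp only [if_pos (Pr_mem.1 hp).1.2]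
          exact h6
  have hFc : (F.card : ℝ) ≤ (SP Om X Y).card + (w + 1) := by
    have h1 := (card_le_card hFS).trans (card_union_le _ _)
    rw [Nat.card_Icc] at h1
    have h2 : (F.card : ℝ) ≤ (SP Om X Y).card + ((Y : ℝ) + 1 - 0) := by
      have : F.card ≤ (SP Om X Y).card + (Y + 1) := by simpa using h1
      have h3 : (F.card : ℝ) ≤ (((SP Om X Y).card + (Y + 1) : ℕ) : ℝ) := by exact_mod_cast this
      push_cast at h3
      linarith
    linarith
  have hF1 : (((Ioc 0 X).filter Nat.Prime).card : ℝ) / m₀.totient * Pp / 2 - X / Real.log X ^ Bb ≤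
      F.card := by
    have hmain' : |(F.card : ℝ) - (((Ioc 0 X).filter Nat.Prime).card : ℝ) / m₀.totient * Pp| ≤
        (1 / 2 : ℝ) ^ s * ((((Ioc 0 X).filter Nat.Prime).card : ℝ) / m₀.totient * Pp) +
          X / Real.log X ^ Bb := by
      rw [hF, hPp, hR]
      convert hmain
    have h1 := (abs_le.1 hmain').1
    have h2 : (0 : ℝ) ≤ (((Ioc 0 X).filter Nat.Prime).card : ℝ) / m₀.totient * Pp :=
      le_trans (by positivity) hmt
    have h3 : (1 / 2 : ℝ) ^ s ≤ 1 / 2 := by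
      calc (1 / 2 : ℝ) ^ s ≤ (1 / 2) ^ 1 := pow_le_pow_of_le_one (by norm_num) (by norm_num) hs1
        _ = 1 / 2 := pow_one _
    have h4 := mul_le_mul_of_nonneg_right h3 h2
    linarith
  have hlow : X / Real.log X ^ Bb + w + 1 ≤ c0 / 2 * X * VV (Z0 Om) 0 Y := by
    refine hL2.trans ?_
    apply mul_le_mul_of_nonneg_left _ (by positivity)
    refine le_trans ?_ hVVlow
    apply div_le_div_of_nonneg_left hcV.le
    · have : 0 < Real.log Y := Real.log_pos (by exact_mod_cast (show 1 < Y by omega))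
      positivity
    · apply pow_le_pow_left₀ (Real.log_nonneg (by exact_mod_cast (show 1 ≤ Y by omega)))
      exact Real.log_le_log (by exact_mod_cast (show 0 < Y by omega)) (by exact_mod_cast hYX)
  linarith

end Pool.Agent.Y843.HG
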